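import Pool.Agent.Lib_helper65.RB.LL

/-!
# The reduced basin
-/

namespace Pool.Agent.Lib_helper65.RB

open Filter Topology

/-- From `y`-data to `w`-data. -/
noncomputable def ww {b : ℕ} (v : Fin b → ℝ) (n : ℕ) : ℝ :=
  if h : n < b then (if Even n then v ⟨n, h⟩ else 2 / v ⟨n, h⟩) else 1

theorem ww_pos {b : ℕ} {v : Fin b → ℝ} (hv : ∀ i, 0 < v i) (n : ℕ) : 0 < ww v n := by
  unfold ww
  split_ifs with h h1
  · exact hv _
  · exact div_pos two_pos (hv _)
  · exact one_pos

/-- The reduced basin: positive initial vectors with limit `√2`. -/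
def Red (a b : ℕ) : Set (Fin b → ℝ) := {v | (∀ i, 0 < v i) ∧ LL a b (ww v) = √2}

end Pool.Agent.Lib_helper65.RB
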