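import Pool.Agent.Lib_helper65.RB.Period

/-!
# Asymptotics of the limit functional when two cells are small
-/

namespace Pool.Agent.Lib_helper65.RB

open Filter Topology

theorem exists_min_pos (g : ℕ → ℝ) (P : ℕ → Prop) (K : ℕ) (h : ∀ m < K, P m → 0 < g m) :
    ∃ μ : ℝ, 0 < μ ∧ ∀ m < K, P m → μ ≤ g m := by
  classical
  induction K with
  | zero => exact ⟨1, one_pos, fun m hm => by omega⟩
  | succ K ih =>
    obtain ⟨μ, hμ, h1⟩ := ih (fun m hm => h m (by omega))
    by_cases hP : P K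
    · refine ⟨min μ (g K), lt_min hμ (h K (by omega) hP), fun m hm hPm => ?_⟩
      rcases Nat.lt_succ_iff_lt_or_eq.1 hm with h2 | rfl
      · exact (min_le_left _ _).trans (h1 m h2 hPm)
      · exact min_le_right _ _
    · refine ⟨μ, hμ, fun m hm hPm => ?_⟩
      rcases Nat.lt_succ_iff_lt_or_eq.1 hm with h2 | rfl
      · exact h1 m h2 hPm
      · exact absurd hPm hP

theorem exists_max_pos (g : ℕ → ℝ) (K : ℕ) : ∃ μ : ℝ, 0 < μ ∧ ∀ m < K, g m ≤ μ := by
  induction K with
  | zero => exact ⟨1, one_pos, fun m hm => by omega⟩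
  | succ K ih =>
    obtain ⟨μ, hμ, h1⟩ := ih
    refine ⟨max μ (g K), lt_max_of_lt_left hμ, fun m hm => ?_⟩
    rcases Nat.lt_succ_iff_lt_or_eq.1 hm with h2 | rfl
    · exact (h1 m h2).trans (le_max_left _ _)
    · exact le_max_right _ _

section
variable {a b q : ℕ} (ha : Odd a) (hb : Odd b) (hab : a < b) (hc : Nat.Coprime a b)
  (hN : 6 ≤ a + b) (hq : a * q % (a + b) = 1)
include ha hb hab hc hN hq

/-- One-period inequality for the limit functional. -/
theorem ell_period {t μ : ℝ} (ht : 0 < t) (hμ : 0 < μ)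
    (hμΨ : ∀ m < a + b + b, 2 ≤ pp a b q m → pp a b q m + 2 ≤ a + b → μ ≤ Psi a b q m) :
    kap a b * (1 + t / μ)⁻¹ * LL a b (Phi a b q (2 / kap a b * t)) ≤ LL a b (Phi a b q t) ∧
    LL a b (Phi a b q t) ≤
      kap a b * (1 + t / μ) ^ (a + b + b) * LL a b (Phi a b q (2 / kap a b * t)) := by
  have hk := kap_pos ha hb hab hN hq
  have ha0 := ha.pos
  have hpos : ∀ n < b, 0 < Phi a b q t n := fun n hn => Phi_pos ha hb hab hN hq ht hn
  have ht' : 0 < 2 / kap a b * t := by positivity
  have hpos' : ∀ n < b, 0 < Phi a b q (2 / kap a b * t) n :=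
    fun n hn => Phi_pos ha hb hab hN hq ht' hn
  have hw := wPhi_isW ha hb hab hN hq t
  have e1 : LL a b (Phi a b q t) = LL a b (wsol a b (Phi a b q t)) :=
    LL_congr ha0 hab.le hc hpos (fun n hn => (wsol_init hn).symm)
  have e2 := LL_shift_even ha0 hab.le hc hw (fun n _ => wPhi_pos ha hb hab hN hq ht n)
    (ha.add_odd hb)
  rw [e1, ← e2]
  have hr : 0 < 1 + t / μ := by positivity
  rw [← LL_smul ha0 hab.le hc hpos' (c := kap a b * (1 + t / μ)⁻¹) (by positivity),
    ← LL_smul ha0 hab.le hc hpos' (c := kap a b * (1 + t / μ) ^ (a + b + b)) (by positivity)]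
  constructor
  · apply LL_mono ha0 hab.le hc
    · intro n hn
      have := hpos' n hn
      positivity
    · intro n hn
      exact (period ha hb hab hN hq ht hμ hμΨ hn).1
  · apply LL_mono ha0 hab.le hc
    · intro n hn
      exact wPhi_pos ha hb hab hN hq ht _
    · intro n hn
      exact (period ha hb hab hN hq ht hμ hμΨ hn).2

/-- Bounds along `t = (κ/2)^J`. -/
theorem ell_geom : ∃ m M : ℝ, 0 < m ∧ 0 < M ∧ ∀ J : ℕ,
    m * kap a b ^ J ≤ LL a b (Phi a b q ((kap a b / 2) ^ J)) ∧
    LL a b (Phi a b q ((kap a b / 2) ^ J)) ≤ M * kap a b ^ J := by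
  have hk := kap_pos ha hb hab hN hq
  have hk1 := kap_lt_one ha hb hab hN hq
  have ha0 := ha.pos
  obtain ⟨μ, hμ, hμΨ⟩ := exists_min_pos (Psi a b q)
    (fun m => 2 ≤ pp a b q m ∧ pp a b q m + 2 ≤ a + b) (a + b + b)
    (fun m _ h => Psi_pos ha hb hab hN hq h.1 h.2)
  set K : ℝ := ((a + b + b : ℕ) : ℝ) with hK
  have hK0 : 0 ≤ K := by positivity
  set e0 : ℝ := LL a b (Phi a b q 1) with he0
  have he0pos : 0 < e0 := LL_pos ha0 hab.le hc (fun n hn => Phi_pos ha hb hab hN hq one_pos hn)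
  have hKμ : 0 ≤ K / μ := by positivity
  have key : ∀ J : ℕ,
      e0 * Real.exp (-((K + 1) / μ * (1 - (1 / 2 : ℝ) ^ J))) * kap a b ^ J ≤
        LL a b (Phi a b q ((kap a b / 2) ^ J)) ∧
      LL a b (Phi a b q ((kap a b / 2) ^ J)) ≤
        e0 * Real.exp ((K + 1) / μ * (1 - (1 / 2 : ℝ) ^ J)) * kap a b ^ J := by
    intro J
    induction J with
    | zero => simp [he0]
    | succ J ih =>
      set t : ℝ := (kap a b / 2) ^ (J + 1) with ht
      have ht0 : 0 < t := by positivity
      have ht2 : 2 / kap a b * t = (kap a b / 2) ^ J := by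
        rw [ht, pow_succ]; field_simp
      have htle : t ≤ (1 / 2 : ℝ) ^ (J + 1) := by
        rw [ht]
        exact pow_le_pow_left₀ (by positivity) (by linarith) _
      obtain ⟨h1, h2⟩ := ell_period ha hb hab hc hN hq ht0 hμ (fun m hm h3 h4 => hμΨ m hm ⟨h3, h4⟩)
      rw [ht2] at h1 h2
      have hsum : (1 - (1 / 2 : ℝ) ^ (J + 1)) = (1 - (1 / 2 : ℝ) ^ J) + (1 / 2 : ℝ) ^ (J + 1) := by
        rw [pow_succ]; ring
      have hexp1 : (1 + t / μ) ≤ Real.exp (t / μ) := by
        have := Real.add_one_le_exp (t / μ); linarith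
      have htμ : 0 ≤ t / μ := by positivity
      have hexpK : (1 + t / μ) ^ (a + b + b) ≤ Real.exp ((K + 1) / μ * (1 / 2 : ℝ) ^ (J + 1)) := by
        calc (1 + t / μ) ^ (a + b + b) ≤ (Real.exp (t / μ)) ^ (a + b + b) :=
              pow_le_pow_left₀ (by positivity) hexp1 _
          _ = Real.exp (K * (t / μ)) := by rw [← Real.exp_nat_mul]
          _ ≤ Real.exp ((K + 1) / μ * (1 / 2 : ℝ) ^ (J + 1)) := by
              apply Real.exp_le_exp.2
              have : K * (t / μ) ≤ (K + 1) * (t / μ) := by nlinarith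
              refine this.trans ?_
              have : (K + 1) * (t / μ) = (K + 1) / μ * t := by ring
              rw [this]
              exact mul_le_mul_of_nonneg_left htle (by positivity)
      have hexpinv : Real.exp (-((K + 1) / μ * (1 / 2 : ℝ) ^ (J + 1))) ≤ (1 + t / μ)⁻¹ := by
        rw [Real.exp_neg]
        apply inv_anti₀ (by positivity)
        refine hexp1.trans (Real.exp_le_exp.2 ?_)
        have : t / μ ≤ (K + 1) * (t / μ) := by nlinarith
        refine this.trans ?_
        have : (K + 1) * (t / μ) = (K + 1) / μ * t := by ring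
        rw [this]
        exact mul_le_mul_of_nonneg_left htle (by positivity)
      constructor
      · refine le_trans ?_ h1
        rw [hsum, mul_add, neg_add, Real.exp_add, pow_succ]
        have h3 := mul_le_mul hexpinv ih.1 (by positivity) (by positivity)
        calc e0 * (Real.exp (-((K + 1) / μ * (1 - (1 / 2 : ℝ) ^ J))) *
              Real.exp (-((K + 1) / μ * (1 / 2 : ℝ) ^ (J + 1)))) * (kap a b ^ J * kap a b)
            = kap a b * (Real.exp (-((K + 1) / μ * (1 / 2 : ℝ) ^ (J + 1))) *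
              (e0 * Real.exp (-((K + 1) / μ * (1 - (1 / 2 : ℝ) ^ J))) * kap a b ^ J)) := by ring
          _ ≤ kap a b * ((1 + t / μ)⁻¹ * LL a b (Phi a b q ((kap a b / 2) ^ J))) :=
              mul_le_mul_of_nonneg_left h3 hk.le
          _ = _ := by ring
      · refine h2.trans ?_
        rw [hsum, mul_add, Real.exp_add, pow_succ]
        have hLpos : 0 < LL a b (Phi a b q ((kap a b / 2) ^ J)) :=
          LL_pos ha0 hab.le hc (fun n hn => Phi_pos ha hb hab hN hq (by positivity) hn)
        have h3 := mul_le_mul hexpK ih.2 hLpos.le (Real.exp_pos _).le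
        calc kap a b * (1 + t / μ) ^ (a + b + b) * LL a b (Phi a b q ((kap a b / 2) ^ J))
            = kap a b * ((1 + t / μ) ^ (a + b + b) * LL a b (Phi a b q ((kap a b / 2) ^ J))) := by
              ring
          _ ≤ kap a b * (Real.exp ((K + 1) / μ * (1 / 2 : ℝ) ^ (J + 1)) *
              (e0 * Real.exp ((K + 1) / μ * (1 - (1 / 2 : ℝ) ^ J)) * kap a b ^ J)) :=
              mul_le_mul_of_nonneg_left h3 hk.le
          _ = _ := by ring
  have hcoef : 0 ≤ (K + 1) / μ := by positivity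
  refine ⟨e0 * Real.exp (-((K + 1) / μ)), e0 * Real.exp ((K + 1) / μ), by positivity, by positivity,
    fun J => ?_⟩
  have hJ : (0 : ℝ) < (1 / 2 : ℝ) ^ J := by positivity
  have h1 : (K + 1) / μ * (1 - (1 / 2 : ℝ) ^ J) ≤ (K + 1) / μ := by nlinarith
  constructor
  · refine le_trans ?_ (key J).1
    apply mul_le_mul_of_nonneg_right _ (by positivity)
    apply mul_le_mul_of_nonneg_left _ he0pos.le
    exact Real.exp_le_exp.2 (by linarith)
  · refine (key J).2.trans ?_
    apply mul_le_mul_of_nonneg_right _ (by positivity)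
    apply mul_le_mul_of_nonneg_left _ he0pos.le
    exact Real.exp_le_exp.2 h1

theorem Phi_mono {t t' : ℝ} (h : t ≤ t') (n : ℕ) : Phi a b q t n ≤ Phi a b q t' n := by
  unfold Phi
  split_ifs
  · exact h
  · exact le_refl _

/-- the exponent -/
noncomputable def alp (a b : ℕ) : ℝ := Real.log (1 / kap a b) / Real.log (2 * (1 / kap a b))

theorem alp_spec : (kap a b / 2) ^ (alp a b) = kap a b := by
  have hk := kap_pos ha hb hab hN hq
  have hk1 := kap_lt_one ha hb hab hN hq
  have h1 : (0 : ℝ) < kap a b / 2 := by positivity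
  have h2 : 1 < 2 * (1 / kap a b) := by
    have : 1 < 1 / kap a b := by rw [lt_div_iff₀ hk]; linarith
    linarith
  have h3 : Real.log (2 * (1 / kap a b)) ≠ 0 := (Real.log_pos h2).ne'
  have h4 : Real.log (kap a b / 2) = - Real.log (2 * (1 / kap a b)) := by
    rw [← Real.log_inv]; congr 1; field_simp
  have h5 : Real.log (1 / kap a b) = - Real.log (kap a b) := by
    rw [one_div, Real.log_inv]
  rw [Real.rpow_def_of_pos h1, h4, alp, h5]
  have hgen : ∀ X Y : ℝ, X ≠ 0 → -X * (-Y / X) = Y := by intro X Y hX; field_simp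
  rw [hgen _ _ h3, Real.exp_log hk]

theorem alp_pos : 0 < alp a b := by
  have hk := kap_pos ha hb hab hN hq
  have hk1 := kap_lt_one ha hb hab hN hq
  have : 1 < 1 / kap a b := by rw [lt_div_iff₀ hk]; linarith
  unfold alp
  exact div_pos (Real.log_pos this) (Real.log_pos (by linarith))

/-- Bounds for all `t`. -/
theorem ell_bounds : ∃ m M : ℝ, 0 < m ∧ 0 < M ∧ ∀ t : ℝ, 0 < t → t < 1 →
    m * t ^ (alp a b) ≤ LL a b (Phi a b q t) ∧ LL a b (Phi a b q t) ≤ M * t ^ (alp a b) := by
  have hk := kap_pos ha hb hab hN hq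
  have hk1 := kap_lt_one ha hb hab hN hq
  have ha0 := ha.pos
  obtain ⟨m, M, hm, hM, h⟩ := ell_geom ha hb hab hc hN hq
  refine ⟨m * kap a b, M * (kap a b)⁻¹, by positivity, by positivity, fun t ht0 ht1 => ?_⟩
  set ρ : ℝ := kap a b / 2 with hρ
  have hρ0 : 0 < ρ := by positivity
  have hρ1 : ρ < 1 := by linarith
  obtain ⟨J, hJ1, hJ2⟩ := exists_nat_pow_near_of_lt_one ht0 ht1.le hρ0 hρ1
  have hα := alp_pos ha hb hab hc hN hq
  have hspec := alp_spec ha hb hab hc hN hq
  have hpow : ∀ j : ℕ, (ρ ^ j) ^ (alp a b) = kap a b ^ j := by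
    intro j
    rw [← Real.rpow_natCast ρ j, ← Real.rpow_mul hρ0.le, mul_comm, Real.rpow_mul hρ0.le, hspec,
      Real.rpow_natCast]
  have h1 : kap a b ^ (J + 1) ≤ t ^ (alp a b) := by
    rw [← hpow]
    exact Real.rpow_le_rpow (by positivity) hJ1.le hα.le
  have h2 : t ^ (alp a b) ≤ kap a b ^ J := by
    rw [← hpow]
    exact Real.rpow_le_rpow ht0.le hJ2 hα.le
  constructor
  · have h3 : LL a b (Phi a b q (ρ ^ (J + 1))) ≤ LL a b (Phi a b q t) :=
      LL_mono ha0 hab.le hc (fun n hn => Phi_pos ha hb hab hN hq (by positivity) hn)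
        (fun n _ => Phi_mono ha hb hab hc hN hq hJ1.le n)
    refine le_trans ?_ h3
    refine le_trans ?_ (h (J + 1)).1
    rw [pow_succ, mul_assoc]
    apply mul_le_mul_of_nonneg_left _ hm.le
    rw [mul_comm]
    exact mul_le_mul_of_nonneg_right h2 hk.le
  · have h3 : LL a b (Phi a b q t) ≤ LL a b (Phi a b q (ρ ^ J)) :=
      LL_mono ha0 hab.le hc (fun n hn => Phi_pos ha hb hab hN hq ht0 hn)
        (fun n _ => Phi_mono ha hb hab hc hN hq hJ2 n)
    refine h3.trans ((h J).2.trans ?_)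
    rw [mul_assoc]
    apply mul_le_mul_of_nonneg_left _ hM.le
    rw [inv_mul_eq_div, le_div_iff₀ hk, ← pow_succ]
    exact h1

end

/-- Final form: initial data comparable to `1`, except two small entries comparable to `t`. -/
theorem asym {a b : ℕ} (ha : Odd a) (hb : Odd b) (hab : a < b) (hc : Nat.Coprime a b)
    (hN : 6 ≤ a + b) {c1 c2 : ℝ} (hc1 : 0 < c1) (hc2 : 0 < c2) : ∃ m M : ℝ, 0 < m ∧ 0 < M ∧
    ∀ t : ℝ, 0 < t → t < 1 → ∀ v : ℕ → ℝ,
      (∀ n < b, c1 * (if n = b - 1 ∨ n = b - 1 - a then t else 1) ≤ v n ∧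
        v n ≤ c2 * (if n = b - 1 ∨ n = b - 1 - a then t else 1)) →
      m * t ^ (alp a b) ≤ LL a b v ∧ LL a b v ≤ M * t ^ (alp a b) := by
  have ha0 := ha.pos
  have hcN : Nat.Coprime a (a + b) := by simpa using hc
  obtain ⟨q, hq⟩ : ∃ q, a * q % (a + b) = 1 := by
    obtain ⟨q, _, hq⟩ := Nat.exists_mul_mod_eq_one_of_coprime hcN (by omega)
    exact ⟨q, hq⟩
  obtain ⟨m, M, hm, hM, h⟩ := ell_bounds ha hb hab hc hN hq
  obtain ⟨μ1, hμ1, h1⟩ := exists_max_pos (Psi a b q) b
  obtain ⟨μ0, hμ0, h0⟩ := exists_min_pos (Psi a b q)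
    (fun m => 2 ≤ pp a b q m ∧ pp a b q m + 2 ≤ a + b) b
    (fun m _ h => Psi_pos ha hb hab hN hq h.1 h.2)
  set d1 : ℝ := c1 * min 1 (1 / μ1) with hd1
  set d2 : ℝ := c2 * max 1 (1 / μ0) with hd2
  have hd1p : 0 < d1 := mul_pos hc1 (lt_min one_pos (by positivity))
  have hd2p : 0 < d2 := mul_pos hc2 (lt_max_of_lt_left one_pos)
  refine ⟨d1 * m, d2 * M, by positivity, by positivity, fun t ht0 ht1 v hv => ?_⟩
  have hcell : ∀ n < b, (n = b - 1 ∨ n = b - 1 - a) ↔
      (pp a b q n = 0 ∨ pp a b q n + 1 = a + b) := by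
    intro n hn
    constructor
    · rintro (rfl | rfl)
      · exact Or.inl (pp_b_sub_one ha hb hab hN hq)
      · exact Or.inr (pp_b_sub_one_sub_a ha hb hab hN hq)
    · rintro (h | h)
      · rcases pp_zero ha hb hab hN hq (n := n) (by omega) h with h | h
        · exact Or.inl h
        · omega
      · rcases pp_last ha hb hab hN hq (n := n) (by omega) h with h | h
        · exact Or.inr h
        · omega
  have hbig : ∀ n < b, ¬ (pp a b q n = 0 ∨ pp a b q n + 1 = a + b) →
      2 ≤ pp a b q n ∧ pp a b q n + 2 ≤ a + b := by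
    intro n hn h
    have h2 := pp_lt ha hb hab hN hq n
    have h3 : pp a b q n ≠ 1 := by
      intro h1
      have := pp_one ha hb hab hN hq (n := n) (by omega) h1
      omega
    omega
  have hPhi : ∀ n < b, d1 * Phi a b q t n ≤ v n ∧ v n ≤ d2 * Phi a b q t n := by
    intro n hn
    obtain ⟨hv1, hv2⟩ := hv n hn
    by_cases hs : n = b - 1 ∨ n = b - 1 - a
    · rw [if_pos hs] at hv1 hv2
      have : Phi a b q t n = t := by unfold Phi; rw [if_pos ((hcell n hn).1 hs)]
      rw [this]
      constructor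
      · refine le_trans ?_ hv1
        apply mul_le_mul_of_nonneg_right _ ht0.le
        rw [hd1]; exact mul_le_of_le_one_right hc1.le (min_le_left _ _)
      · refine hv2.trans ?_
        apply mul_le_mul_of_nonneg_right _ ht0.le
        rw [hd2]; exact le_mul_of_one_le_right hc2.le (le_max_left _ _)
    · rw [if_neg hs, mul_one] at hv1 hv2
      have hs' : ¬ (pp a b q n = 0 ∨ pp a b q n + 1 = a + b) := fun h => hs ((hcell n hn).2 h)
      have hb' := hbig n hn hs'
      have : Phi a b q t n = Psi a b q n := by unfold Phi; rw [if_neg hs']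
      rw [this]
      have g1 := h1 n hn
      have g0 := h0 n hn hb'
      have gp := Psi_pos ha hb hab hN hq hb'.1 hb'.2
      constructor
      · refine le_trans ?_ hv1
        rw [hd1, mul_assoc]
        apply mul_le_of_le_one_right hc1.le
        calc min 1 (1 / μ1) * Psi a b q n ≤ 1 / μ1 * Psi a b q n :=
              mul_le_mul_of_nonneg_right (min_le_right _ _) gp.le
          _ ≤ 1 := by rw [div_mul_eq_mul_div, one_mul, div_le_one hμ1]; exact g1
      · refine hv2.trans ?_
        rw [hd2, mul_assoc]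
        apply le_mul_of_one_le_right hc2.le
        calc (1 : ℝ) ≤ 1 / μ0 * Psi a b q n := by
              rw [div_mul_eq_mul_div, one_mul, le_div_iff₀ hμ0, one_mul]; exact g0
          _ ≤ max 1 (1 / μ0) * Psi a b q n :=
              mul_le_mul_of_nonneg_right (le_max_right _ _) gp.le
  have hpos : ∀ n < b, 0 < Phi a b q t n := fun n hn => Phi_pos ha hb hab hN hq ht0 hn
  obtain ⟨h3, h4⟩ := h t ht0 ht1
  constructor
  · calc d1 * m * t ^ (alp a b) = d1 * (m * t ^ (alp a b)) := by ring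
      _ ≤ d1 * LL a b (Phi a b q t) := mul_le_mul_of_nonneg_left h3 hd1p.le
      _ = LL a b (fun n => d1 * Phi a b q t n) := (LL_smul ha0 hab.le hc hpos hd1p).symm
      _ ≤ LL a b v := LL_mono ha0 hab.le hc (fun n hn => mul_pos hd1p (hpos n hn))
          (fun n hn => (hPhi n hn).1)
  · calc LL a b v ≤ LL a b (fun n => d2 * Phi a b q t n) :=
          LL_mono ha0 hab.le hc (fun n hn => lt_of_lt_of_le (mul_pos hd1p (hpos n hn)) (hPhi n hn).1)
            (fun n hn => (hPhi n hn).2)
      _ = d2 * LL a b (Phi a b q t) := LL_smul ha0 hab.le hc hpos hd2p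
      _ ≤ d2 * (M * t ^ (alp a b)) := mul_le_mul_of_nonneg_left h4 hd2p.le
      _ = d2 * M * t ^ (alp a b) := by ring

end Pool.Agent.Lib_helper65.RB
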