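import Pool.Agent.Lib_helper65.RB.Mean

/-!
# The solution operator and the limit functional
-/

namespace Pool.Agent.Lib_helper65.RB

open Filter Topology

/-- The solution of the mean recursion with initial data `v`. -/
noncomputable def wsol (a b : ℕ) (v : ℕ → ℝ) (n : ℕ) : ℝ :=
  if h : n < b ∨ a = 0 ∨ b = 0 then v n
  else mean n (wsol a b v (n - a)) (wsol a b v (n - b))
termination_by n
decreasing_by all_goals omega

theorem wsol_init {a b : ℕ} {v : ℕ → ℝ} {n : ℕ} (h : n < b) : wsol a b v n = v n := by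
  rw [wsol, dif_pos (Or.inl h)]

theorem wsol_isW {a b : ℕ} (ha : 0 < a) (hab : a ≤ b) (v : ℕ → ℝ) : IsW a b (wsol a b v) := by
  intro n
  conv_lhs => rw [wsol]
  rw [dif_neg (by omega)]
  congr 2
  omega

theorem IsW.ext {a b : ℕ} (ha : 0 < a) (hab : a ≤ b) {w w' : ℕ → ℝ} (h : IsW a b w)
    (h' : IsW a b w') (h0 : ∀ n < b, w n = w' n) : ∀ n, w n = w' n := by
  intro n
  induction n using Nat.strong_induction_on with
  | _ n ih =>
    by_cases hn : n < b
    · exact h0 n hn
    · obtain ⟨j, rfl⟩ : ∃ j, n = j + b := ⟨n - b, by omega⟩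
      rw [h j, h' j, ih _ (by omega), ih _ (by omega)]

/-- The limit functional. -/
noncomputable def LL (a b : ℕ) (v : ℕ → ℝ) : ℝ := limUnder atTop (wsol a b v)

section
variable {a b : ℕ} (ha : 0 < a) (hab : a ≤ b) (hc : Nat.Coprime a b)
include ha hab hc

theorem LL_tendsto {v : ℕ → ℝ} (hv : ∀ n < b, 0 < v n) :
    Tendsto (wsol a b v) atTop (𝓝 (LL a b v)) := by
  obtain ⟨L, _, hL⟩ := (wsol_isW ha hab v).converges ha hab hc
    (fun n hn => by rw [wsol_init hn]; exact hv n hn)
  exact tendsto_nhds_limUnder ⟨L, hL⟩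

theorem LL_eq {w : ℕ → ℝ} (hw : IsW a b w) (h0 : ∀ n < b, 0 < w n) {L : ℝ}
    (hL : Tendsto w atTop (𝓝 L)) : LL a b w = L := by
  have h1 := LL_tendsto ha hab hc (v := w) h0
  have h2 : wsol a b w = w := by
    funext n
    exact IsW.ext ha hab (wsol_isW ha hab w) hw (fun n hn => wsol_init hn) n
  rw [h2] at h1
  exact tendsto_nhds_unique h1 hL

theorem IsW.tendsto_LL {w : ℕ → ℝ} (hw : IsW a b w) (h0 : ∀ n < b, 0 < w n) :
    Tendsto w atTop (𝓝 (LL a b w)) := by
  obtain ⟨L, _, hL⟩ := hw.converges ha hab hc h0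
  rw [LL_eq ha hab hc hw h0 hL]
  exact hL

theorem LL_pos {v : ℕ → ℝ} (hv : ∀ n < b, 0 < v n) : 0 < LL a b v := by
  obtain ⟨L, hL0, hL⟩ := (wsol_isW ha hab v).converges ha hab hc
    (fun n hn => by rw [wsol_init hn]; exact hv n hn)
  have := tendsto_nhds_unique (LL_tendsto ha hab hc hv) hL
  rw [this]; exact hL0

theorem LL_mono {v v' : ℕ → ℝ} (hv : ∀ n < b, 0 < v n) (h : ∀ n < b, v n ≤ v' n) :
    LL a b v ≤ LL a b v' := by
  refine le_of_tendsto_of_tendsto' (LL_tendsto ha hab hc hv)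
    (LL_tendsto ha hab hc (fun n hn => lt_of_lt_of_le (hv n hn) (h n hn))) ?_
  apply IsW.mono (by omega) ha hab (wsol_isW ha hab v) (wsol_isW ha hab v')
  · intro n hn; rw [wsol_init hn]; exact hv n hn
  · intro n hn; rw [wsol_init hn, wsol_init hn]; exact h n hn

theorem LL_congr {v v' : ℕ → ℝ} (hv : ∀ n < b, 0 < v n) (h : ∀ n < b, v n = v' n) :
    LL a b v = LL a b v' :=
  le_antisymm (LL_mono ha hab hc hv (fun n hn => (h n hn).le))
    (LL_mono ha hab hc (fun n hn => by rw [← h n hn]; exact hv n hn) (fun n hn => (h n hn).ge))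

theorem LL_smul {v : ℕ → ℝ} (hv : ∀ n < b, 0 < v n) {c : ℝ} (hc0 : 0 < c) :
    LL a b (fun n => c * v n) = c * LL a b v := by
  have h1 : IsW a b (fun n => c * wsol a b v n) := (wsol_isW ha hab v).smul hc0
  have h2 : LL a b (fun n => c * v n) = LL a b (fun n => c * wsol a b v n) := by
    apply LL_congr ha hab hc (fun n hn => mul_pos hc0 (hv n hn))
    intro n hn; rw [wsol_init hn]
  rw [h2]
  apply LL_eq ha hab hc h1
  · intro n hn; rw [wsol_init hn]; exact mul_pos hc0 (hv n hn)
  · exact (LL_tendsto ha hab hc hv).const_mul c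

theorem IsW.shift_even {w : ℕ → ℝ} (hw : IsW a b w) {N : ℕ} (hN : Even N) :
    IsW a b (fun n => w (n + N)) := by
  intro n
  simp only
  have h := hw (n + N)
  have e1 : n + b + N = n + N + b := by ring
  have e2 : n + b - a + N = n + N + b - a := by omega
  rw [e1, e2, h]
  unfold mean
  have : Even (n + N + b) ↔ Even (n + b) := by
    have : n + N + b = (n + b) + N := by ring
    rw [this, Nat.even_add]; simp [hN]
  simp only [this]

theorem LL_shift_even {w : ℕ → ℝ} (hw : IsW a b w) (h0 : ∀ n < b, 0 < w n) {N : ℕ} (hN : Even N) :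
    LL a b (fun n => w (n + N)) = LL a b w := by
  have hp := hw.pos (by omega) ha hab h0
  apply LL_eq ha hab hc (hw.shift_even ha hab hc hN) (fun n _ => hp _)
  exact (hw.tendsto_LL ha hab hc h0).comp (tendsto_add_atTop_nat N)

/-- Odd shift. -/
theorem IsW.shift_odd {w : ℕ → ℝ} (hw : IsW a b w) (h0 : ∀ n < b, 0 < w n) {N : ℕ} (hN : Odd N) :
    IsW a b (fun n => 2 / w (n + N)) := by
  have hp := hw.pos (by omega) ha hab h0
  intro n
  simp only
  have h := hw (n + N)
  have e1 : n + b + N = n + N + b := by ring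
  have e2 : n + b - a + N = n + N + b - a := by omega
  rw [e1, e2, h]
  have hx := hp (n + N + b - a)
  have hy := hp (n + N)
  unfold mean
  have : Even (n + N + b) ↔ ¬ Even (n + b) := by
    have : n + N + b = (n + b) + N := by ring
    rw [this, Nat.even_add, ← Nat.not_even_iff_odd] at *
    tauto
  by_cases h1 : Even (n + b)
  · rw [if_pos h1, if_neg (by rw [this]; exact not_not.2 h1)]
    field_simp
    ring
  · rw [if_neg h1, if_pos (this.2 h1)]
    field_simp
    ring

theorem LL_shift_odd {w : ℕ → ℝ} (hw : IsW a b w) (h0 : ∀ n < b, 0 < w n) {N : ℕ} (hN : Odd N) :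
    LL a b (fun n => 2 / w (n + N)) = 2 / LL a b w := by
  have hp := hw.pos (by omega) ha hab h0
  apply LL_eq ha hab hc (hw.shift_odd ha hab hc h0 hN) (fun n _ => div_pos two_pos (hp _))
  have hpos : LL a b w ≠ 0 := by
    obtain ⟨L, hL0, hL⟩ := hw.converges ha hab hc h0
    rw [LL_eq ha hab hc hw h0 hL]; exact hL0.ne'
  exact Tendsto.div tendsto_const_nhds
    ((hw.tendsto_LL ha hab hc h0).comp (tendsto_add_atTop_nat N)) hpos

end

end Pool.Agent.Lib_helper65.RB
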