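import Pool.Agent.Lib_helper65.RB.Profile
import Pool.Agent.Lib_helper65.RB.LL

/-!
# Cells and the self-similar sequence `Ψ`
-/

namespace Pool.Agent.Lib_helper65.RB

open Filter Topology

/-- The cell of the time `n`. -/
def pp (a b q n : ℕ) : ℕ := ((n + a + 1) * q) % (a + b)

section
variable {a b q : ℕ} (ha : Odd a) (hb : Odd b) (hab : a < b) (hN : 6 ≤ a + b)
  (hq : a * q % (a + b) = 1)
include ha hb hab hN hq

theorem pp_lt (n : ℕ) : pp a b q n < a + b := Nat.mod_lt _ (by omega)

theorem pp_add_a (n : ℕ) : pp a b q (n + a) = (pp a b q n + 1) % (a + b) := by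
  unfold pp
  have e : (n + a + a + 1) * q = (n + a + 1) * q + a * q := by ring
  rw [e, Nat.add_mod, hq]

theorem pp_add_b (n : ℕ) : pp a b q n = (pp a b q (n + b) + 1) % (a + b) := by
  unfold pp
  have e : (n + a + 1) * q + (a + b) * q = (n + b + a + 1) * q + a * q := by ring
  have e2 : ((n + a + 1) * q) % (a + b) = ((n + a + 1) * q + (a + b) * q) % (a + b) := by
    rw [Nat.add_mul_mod_self_left]
  rw [e2, e, Nat.add_mod, hq]

theorem pp_add_N (n : ℕ) : pp a b q (n + (a + b)) = pp a b q n := by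
  unfold pp
  have e : (n + (a + b) + a + 1) * q = (n + a + 1) * q + (a + b) * q := by ring
  rw [e, Nat.add_mul_mod_self_left]

theorem pp_sub_a {m : ℕ} (hm : a ≤ m) (h : pp a b q m ≠ 0) :
    pp a b q (m - a) + 1 = pp a b q m := by
  have h1 := pp_add_a ha hb hab hN hq (m - a)
  rw [Nat.sub_add_cancel hm] at h1
  have h2 := pp_lt ha hb hab hN hq (m - a)
  rcases Nat.lt_or_ge (pp a b q (m - a) + 1) (a + b) with h3 | h3
  · rw [Nat.mod_eq_of_lt h3] at h1; exact h1.symm
  · have : pp a b q (m - a) + 1 = a + b := by omega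
    rw [this, Nat.mod_self] at h1
    exact absurd h1 h

theorem pp_sub_b {m : ℕ} (hm : b ≤ m) (h : pp a b q m + 1 < a + b) :
    pp a b q (m - b) = pp a b q m + 1 := by
  have h1 := pp_add_b ha hb hab hN hq (m - b)
  rw [Nat.sub_add_cancel hm, Nat.mod_eq_of_lt h] at h1
  exact h1

theorem q_odd : Odd q := by
  rw [← Nat.not_even_iff_odd]
  intro h
  have hNe : 2 ∣ a + b := (ha.add_odd hb).two_dvd
  have h1 : a * q % (a + b) % 2 = a * q % 2 := Nat.mod_mod_of_dvd _ hNe
  rw [hq] at h1
  have h2 : a * q % 2 = 0 := Nat.even_iff.1 (h.mul_left a)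
  omega

theorem pp_even (n : ℕ) : Even (pp a b q n) ↔ Even n := by
  have hq' := q_odd ha hb hab hN hq
  have hNe : 2 ∣ a + b := (ha.add_odd hb).two_dvd
  have h1 : pp a b q n % 2 = (n + a + 1) * q % 2 := Nat.mod_mod_of_dvd _ hNe
  rw [Nat.even_iff, h1, ← Nat.even_iff, Nat.even_mul]
  have : ¬ Even q := Nat.not_even_iff_odd.2 hq'
  have e : n + a + 1 = n + (a + 1) := by ring
  rw [e, Nat.even_add]
  have : Even (a + 1) := ha.add_odd odd_one
  tauto

/-- From the cell back to the time. -/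
theorem modEq_of_pp {n c : ℕ} (h : pp a b q n = c) : n + a + 1 ≡ c * a [MOD (a + b)] := by
  have h1 : (n + a + 1) * q ≡ c [MOD (a + b)] := by
    unfold pp at h
    rw [← h]
    exact (Nat.mod_modEq _ _).symm
  have h2 := h1.mul_right a
  have h3 : (n + a + 1) * q * a ≡ (n + a + 1) * 1 [MOD (a + b)] := by
    have : a * q ≡ 1 [MOD (a + b)] := by
      unfold Nat.ModEq; rw [hq, Nat.mod_eq_of_lt (by omega)]
    have h4 := this.mul_left (n + a + 1)
    calc (n + a + 1) * q * a = (n + a + 1) * (a * q) := by ring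
      _ ≡ (n + a + 1) * 1 [MOD (a + b)] := h4
  rw [mul_one] at h3
  exact h3.symm.trans h2

theorem pp_zero {n : ℕ} (hn : n < a + b + b) (h : pp a b q n = 0) :
    n = b - 1 ∨ n = a + b + b - 1 := by
  have h1 := modEq_of_pp ha hb hab hN hq h
  rw [zero_mul] at h1
  have h2 : a + b ∣ n + a + 1 := (Nat.modEq_zero_iff_dvd).1 h1
  obtain ⟨k, hk⟩ := h2
  have hk3 : k < 3 := by
    by_contra h
    have : (a + b) * 3 ≤ (a + b) * k := Nat.mul_le_mul_left _ (by omega)
    omega
  interval_cases k <;> omega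

theorem pp_one {n : ℕ} (hn : n < a + b + b) (h : pp a b q n = 1) : n = a + b - 1 := by
  have h1 := modEq_of_pp ha hb hab hN hq h
  have ha1 : 1 ≤ a := ha.pos
  rw [one_mul] at h1
  have h2 : a + b ∣ n + 1 := by
    have h3 : a + (n + 1) ≡ a + 0 [MOD (a + b)] := by
      have : a + (n + 1) = n + a + 1 := by ring
      rw [this]; simpa using h1
    exact (Nat.modEq_zero_iff_dvd).1 (Nat.ModEq.add_left_cancel' a h3)
  obtain ⟨k, hk⟩ := h2
  have hk3 : k < 3 := by
    by_contra h
    have : (a + b) * 3 ≤ (a + b) * k := Nat.mul_le_mul_left _ (by omega)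
    omega
  interval_cases k <;> omega

theorem pp_last {n : ℕ} (hn : n < a + b + b) (h : pp a b q n + 1 = a + b) :
    n = b - 1 - a ∨ n = 2 * b - 1 := by
  obtain ⟨c, hc⟩ : ∃ c, c = pp a b q n := ⟨_, rfl⟩
  have h1 := modEq_of_pp ha hb hab hN hq hc.symm
  have hc1 : c + 1 = a + b := by omega
  have h2 : (n + a + 1) + a ≡ 0 [MOD (a + b)] := by
    have h3 := h1.add_right a
    have h4 : c * a + a = (a + b) * a := by rw [← hc1]; ring
    rw [h4] at h3
    exact h3.trans ((Nat.modEq_zero_iff_dvd).2 ⟨a, rfl⟩)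
  obtain ⟨k, hk⟩ := (Nat.modEq_zero_iff_dvd).1 h2
  have hk3 : k < 4 := by
    by_contra h
    have : (a + b) * 4 ≤ (a + b) * k := Nat.mul_le_mul_left _ (by omega)
    omega
  interval_cases k <;> omega

theorem pp_b_sub_one : pp a b q (b - 1) = 0 := by
  unfold pp
  have : b - 1 + a + 1 = a + b := by omega
  rw [this, Nat.mul_mod_right]

theorem pp_b_sub_one_sub_a : pp a b q (b - 1 - a) + 1 = a + b := by
  have h1 := pp_add_a ha hb hab hN hq (b - 1 - a)
  have h2 : b - 1 - a + a = b - 1 := by omega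
  rw [h2, pp_b_sub_one ha hb hab hN hq] at h1
  have h3 := pp_lt ha hb hab hN hq (b - 1 - a)
  by_contra h4
  rw [Nat.mod_eq_of_lt (by omega)] at h1
  omega

/-- the exponent of `κ` -/
noncomputable def tau (a b q n : ℕ) : ℝ :=
  (2 * ((n : ℝ) - (b - 1)) + ((b : ℝ) - a) * pp a b q n) / (2 * (a + b))

theorem tau_sub_a {m : ℕ} (hm : a ≤ m) (h : pp a b q m ≠ 0) :
    tau a b q m = tau a b q (m - a) + 1 / 2 := by
  have h1 := pp_sub_a ha hb hab hN hq hm h
  unfold tau
  have h2 : (pp a b q m : ℝ) = pp a b q (m - a) + 1 := by rw [← h1]; push_cast; ring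
  have h3 : ((m - a : ℕ) : ℝ) = m - a := by rw [Nat.cast_sub hm]
  rw [h2, h3]
  have : (0 : ℝ) < a + b := by
    have : 0 < a + b := by omega
    exact_mod_cast this
  field_simp
  ring

theorem tau_sub_b {m : ℕ} (hm : b ≤ m) (h : pp a b q m + 1 < a + b) :
    tau a b q m = tau a b q (m - b) + 1 / 2 := by
  have h1 := pp_sub_b ha hb hab hN hq hm h
  unfold tau
  have h2 : (pp a b q (m - b) : ℝ) = pp a b q m + 1 := by rw [h1]; push_cast; ring
  have h3 : ((m - b : ℕ) : ℝ) = m - b := by rw [Nat.cast_sub hm]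
  rw [h2, h3]
  have : (0 : ℝ) < a + b := by
    have : 0 < a + b := by omega
    exact_mod_cast this
  field_simp
  ring

theorem tau_add_N (n : ℕ) : tau a b q (n + (a + b)) = tau a b q n + 1 := by
  unfold tau
  rw [pp_add_N ha hb hab hN hq]
  have : (0 : ℝ) < a + b := by
    have : 0 < a + b := by omega
    exact_mod_cast this
  push_cast
  field_simp
  ring

end

/-- `n = s - 2` where `a + b = 2 s`. -/
def ss (a b : ℕ) : ℕ := (a + b) / 2 - 2

/-- `κ = (s - 2) / (s - 1)` -/
noncomputable def kap (a b : ℕ) : ℝ := (ss a b : ℝ) / (ss a b + 1)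

/-- The self-similar sequence. -/
noncomputable def Psi (a b q n : ℕ) : ℝ :=
  kap a b ^ (tau a b q n) * ff (kap a b) (ss a b) (pp a b q n)

section
variable {a b q : ℕ} (ha : Odd a) (hb : Odd b) (hab : a < b) (hN : 6 ≤ a + b)
  (hq : a * q % (a + b) = 1)
include ha hb hab hN hq

theorem ss_eq : 2 * ss a b + 4 = a + b := by
  unfold ss
  obtain ⟨k, hk⟩ := (ha.add_odd hb).two_dvd
  omega

theorem ss_pos : 1 ≤ ss a b := by
  have := ss_eq ha hb hab hN hq
  omega

theorem kap_pos : 0 < kap a b := by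
  unfold kap
  have := ss_pos ha hb hab hN hq
  have : (0 : ℝ) < ss a b := by exact_mod_cast this
  positivity

theorem kap_lt_one : kap a b < 1 := by
  unfold kap
  rw [div_lt_one (by positivity)]
  linarith

theorem Psi_pos {n : ℕ} (h1 : 2 ≤ pp a b q n) (h2 : pp a b q n + 2 ≤ a + b) :
    0 < Psi a b q n := by
  unfold Psi
  have hk := kap_pos ha hb hab hN hq
  have := ss_eq ha hb hab hN hq
  exact mul_pos (Real.rpow_pos_of_pos hk _) (ff_pos hk h1 (by omega))

theorem Psi_zero {n : ℕ} (h : pp a b q n < 2 ∨ a + b < pp a b q n + 2) : Psi a b q n = 0 := by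
  unfold Psi
  have := ss_eq ha hb hab hN hq
  have h3 := pp_lt ha hb hab hN hq n
  rcases h with h | h
  · interval_cases hp : pp a b q n
    · rw [ff_zero]; ring
    · rw [ff_one]; ring
  · have : pp a b q n = 2 * ss a b + 3 := by omega
    rw [this, ff_last]; ring

theorem Psi_nonneg (n : ℕ) : 0 ≤ Psi a b q n := by
  by_cases h : 2 ≤ pp a b q n ∧ pp a b q n + 2 ≤ a + b
  · exact (Psi_pos ha hb hab hN hq h.1 h.2).le
  · rw [Psi_zero ha hb hab hN hq (by omega)]

theorem Psi_add_N (n : ℕ) : Psi a b q (n + (a + b)) = kap a b * Psi a b q n := by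
  unfold Psi
  have hk := kap_pos ha hb hab hN hq
  rw [pp_add_N ha hb hab hN hq, tau_add_N ha hb hab hN hq, Real.rpow_add hk, Real.rpow_one]
  ring

/-- `Ψ` is a solution of the frozen recursion. -/
theorem Psi_rec {m : ℕ} (hm : b ≤ m) (h1 : 2 ≤ pp a b q m) (h2 : pp a b q m + 2 ≤ a + b) :
    mean m (Psi a b q (m - a)) (Psi a b q (m - b)) = Psi a b q m := by
  have hk := kap_pos ha hb hab hN hq
  have hs := ss_eq ha hb hab hN hq
  have ea := pp_sub_a ha hb hab hN hq (m := m) (by omega) (by omega)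
  have eb := pp_sub_b ha hb hab hN hq (m := m) hm (by omega)
  have ta := tau_sub_a ha hb hab hN hq (m := m) (by omega) (by omega)
  have tb := tau_sub_b ha hb hab hN hq (m := m) hm (by omega)
  have ea' : pp a b q (m - a) = pp a b q m - 1 := by omega
  have ta' : tau a b q (m - a) = tau a b q m + (-(1 / 2) : ℝ) := by linarith
  have tb' : tau a b q (m - b) = tau a b q m + (-(1 / 2) : ℝ) := by linarith
  have hev := pp_even ha hb hab hN hq m
  unfold Psi
  rw [ea', eb, ta', tb', Real.rpow_add hk]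
  unfold mean
  by_cases h : Even m
  · rw [if_pos h]
    have h3 := ff_even (κ := kap a b) (n := ss a b) (p := pp a b q m) rfl
      (ss_pos ha hb hab hN hq) (hev.2 h) h1 (by omega)
    rw [← h3]
    ring
  · rw [if_neg h]
    have h3 := ff_odd (κ := kap a b) (n := ss a b) (p := pp a b q m)
      (fun h' => h (hev.1 h')) (by omega)
    rw [← h3]
    have hp1 : 2 ≤ pp a b q m - 1 := by
      have : pp a b q m ≠ 2 := by
        intro h4
        apply h
        rw [← hev, h4]; exact even_two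
      omega
    have hp2 : pp a b q m + 1 ≤ 2 * ss a b + 2 := by
      have : pp a b q m ≠ 2 * ss a b + 2 := by
        intro h4
        apply h
        rw [← hev, h4]; exact ⟨ss a b + 1, by ring⟩
      omega
    have f1 := ff_pos hk (n := ss a b) (p := pp a b q m - 1) hp1 (by omega)
    have f2 := ff_pos hk (n := ss a b) (p := pp a b q m + 1) (by omega) hp2
    have f3 := Real.rpow_pos_of_pos hk (tau a b q m)
    have f4 := Real.rpow_pos_of_pos hk (-(1 / 2) : ℝ)
    field_simp

end

end Pool.Agent.Lib_helper65.RB
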