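import Mathlib

/-!
# The difference equation `x_{n+1} = 1/x_{n-k} + 1/x_{n-l}`: definitions
-/

namespace Pool.Agent.Lib_helper65.RB

open Filter Topology

/-- The set of all positive initial vectors `(x_{-m}, ..., x_0)` (entry `i` of the vector is
`x_{i-m}`) whose solution of `x_{n+1} = 1/x_{n-k} + 1/x_{n-l}`, `n = 0, 1, 2, ...`, converges to
`√2`. The sequence `x : ℕ → ℝ` below is shifted by `m`: its value at `n + m` is `x_n`. -/
def BasinM (k l m : ℕ) : Set (Fin (m + 1) → ℝ) :=
  {v | (∀ i, 0 < v i) ∧ ∃ x : ℕ → ℝ, (∀ i : Fin (m + 1), x i = v i) ∧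
    (∀ n : ℕ, x (n + m + 1) = 1 / x (n + m - k) + 1 / x (n + m - l)) ∧
    Tendsto x atTop (𝓝 (√2))}

/-- The basin of `√2`, as in the problem: `m = max k l`. -/
def Basin (k l : ℕ) : Set (Fin (max k l + 1) → ℝ) := BasinM k l (max k l)

/-- Semialgebraic subsets of `ℝ^n`: the Boolean combinations of sets given by a strict polynomial
inequality `p > 0` (with real coefficients). -/
inductive Semialgebraic {n : ℕ} : Set (Fin n → ℝ) → Prop
  | pos (p : MvPolynomial (Fin n) ℝ) : Semialgebraic {x | 0 < MvPolynomial.eval x p}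
  | compl {s : Set (Fin n → ℝ)} : Semialgebraic s → Semialgebraic sᶜ
  | inter {s t : Set (Fin n → ℝ)} : Semialgebraic s → Semialgebraic t → Semialgebraic (s ∩ t)

/-- Scaling of the initial vector by `c`, one factor for each residue class `i mod d`: the entry
`i` is multiplied by `c (i mod d)` if `i / d` (integer part) is even and divided by it if `i / d`
is odd. -/
noncomputable def scl {m : ℕ} (d : ℕ) (v : Fin (m + 1) → ℝ) (c : ZMod d → ℝ) (i : Fin (m + 1)) :
    ℝ := if Even ((i : ℕ) / d) then v i * c ((i : ℕ) : ZMod d) else v i / c ((i : ℕ) : ZMod d)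

/-- `y` solves `y_{n+b} = 1/y_{n+b-a} + 1/y_n`. -/
def IsSol (a b : ℕ) (y : ℕ → ℝ) : Prop := ∀ n : ℕ, y (n + b) = 1 / y (n + b - a) + 1 / y n

/-- The mean used at time `j`: arithmetic for even `j`, harmonic for odd `j`. -/
noncomputable def mean (j : ℕ) (x y : ℝ) : ℝ :=
  if Even j then (x + y) / 2 else 2 * x * y / (x + y)

/-- `w` satisfies the mean recursion. -/
def IsW (a b : ℕ) (w : ℕ → ℝ) : Prop := ∀ n : ℕ, w (n + b) = mean (n + b) (w (n + b - a)) (w n)

end Pool.Agent.Lib_helper65.RB
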