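import Pool.Agent.Lib_helper65.RB.Red
import Pool.Agent.Lib_helper48.RB_SA

/-!
# Reduction of the basin to the reduced basin
-/

namespace Pool.Agent.Lib_helper65.RB

open Filter Topology

/-- flip of the odd entries -/
noncomputable def flp (z : ℕ → ℝ) (n : ℕ) : ℝ := if Even n then z n else 2 / z n

theorem flp_pos {z : ℕ → ℝ} (hz : ∀ n, 0 < z n) (n : ℕ) : 0 < flp z n := by
  unfold flp; split_ifs
  · exact hz n
  · exact div_pos two_pos (hz n)

theorem flp_tendsto {z : ℕ → ℝ} (hz : Tendsto z atTop (𝓝 (√2))) :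
    Tendsto (flp z) atTop (𝓝 (√2)) := by
  have h2 : Tendsto (fun n => 2 / z n) atTop (𝓝 (√2)) := by
    have : (2 : ℝ) / √2 = √2 := by
      rw [div_eq_iff (by positivity)]; exact (Real.mul_self_sqrt (by norm_num)).symm
    have h3 := Tendsto.div (tendsto_const_nhds (x := (2 : ℝ))) hz (by positivity : (√2 : ℝ) ≠ 0)
    rw [this] at h3
    exact h3
  rw [Metric.tendsto_atTop] at hz h2 ⊢
  intro ε hε
  obtain ⟨N1, h1⟩ := hz ε hε
  obtain ⟨N2, h2⟩ := h2 ε hε
  refine ⟨max N1 N2, fun n hn => ?_⟩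
  unfold flp
  split_ifs
  · exact h1 n (le_of_max_le_left hn)
  · exact h2 n (le_of_max_le_right hn)

theorem isW_flp {a b : ℕ} (ha : Odd a) (hb : Odd b) (hab : a ≤ b) {z : ℕ → ℝ}
    (hz : ∀ n, 0 < z n) (h : IsSol a b z) : IsW a b (flp z) := by
  intro n
  have e : Even (n + b - a) ↔ Even n := by
    obtain ⟨k, rfl⟩ := ha
    obtain ⟨l, rfl⟩ := hb
    have : n + (2 * l + 1) - (2 * k + 1) = n + 2 * (l - k) := by omega
    rw [this, Nat.even_add]
    simp
  have e2 : Even (n + b) ↔ ¬ Even n := by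
    rw [Nat.even_add]
    have := Nat.not_even_iff_odd.2 hb
    tauto
  have h1 := h n
  have hx := hz (n + b - a)
  have hy := hz n
  unfold flp mean
  by_cases hn : Even n
  · rw [if_neg (by tauto), if_neg (by tauto), if_pos (e.2 hn), if_pos hn, h1]
    field_simp
    ring
  · rw [if_pos (e2.2 hn), if_pos (e2.2 hn), if_neg (by tauto), if_neg hn, h1]
    field_simp

theorem isSol_flp {a b : ℕ} (ha : Odd a) (hb : Odd b) (hab : a ≤ b) {w : ℕ → ℝ}
    (hw : ∀ n, 0 < w n) (h : IsW a b w) : IsSol a b (flp w) := by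
  intro n
  have e : Even (n + b - a) ↔ Even n := by
    obtain ⟨k, rfl⟩ := ha
    obtain ⟨l, rfl⟩ := hb
    have : n + (2 * l + 1) - (2 * k + 1) = n + 2 * (l - k) := by omega
    rw [this, Nat.even_add]
    simp
  have e2 : Even (n + b) ↔ ¬ Even n := by
    rw [Nat.even_add]
    have := Nat.not_even_iff_odd.2 hb
    tauto
  have h1 := h n
  have hx := hw (n + b - a)
  have hy := hw n
  unfold flp
  unfold mean at h1
  by_cases hn : Even n
  · rw [if_neg (by tauto)] at h1
    rw [if_neg (by tauto), if_pos (e.2 hn), if_pos hn, h1]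
    field_simp
    ring
  · rw [if_pos (e2.2 hn)] at h1
    rw [if_pos (e2.2 hn), if_neg (by tauto), if_neg hn, h1]
    field_simp

theorem BasinM_symm (k l m : ℕ) : BasinM k l m = BasinM l k m := by
  unfold BasinM
  ext v
  simp only [Set.mem_setOf_eq]
  constructor
  · rintro ⟨h1, x, h2, h3, h4⟩
    exact ⟨h1, x, h2, fun n => by rw [h3 n]; ring, h4⟩
  · rintro ⟨h1, x, h2, h3, h4⟩
    exact ⟨h1, x, h2, fun n => by rw [h3 n]; ring, h4⟩

/-- Positivity of solutions. -/
theorem IsSol.pos {a b : ℕ} (ha : 0 < a) (hab : a ≤ b) {y : ℕ → ℝ} (h : IsSol a b y)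
    (h0 : ∀ n < b, 0 < y n) : ∀ n, 0 < y n := by
  intro n
  induction n using Nat.strong_induction_on with
  | _ n ih =>
    by_cases hn : n < b
    · exact h0 n hn
    · obtain ⟨m, rfl⟩ : ∃ m, n = m + b := ⟨n - b, by omega⟩
      rw [h m]
      have h1 := ih (m + b - a) (by omega)
      have h2 := ih m (by omega)
      positivity

/-- Membership in the reduced basin through solutions. -/
theorem mem_Red_iff {a b : ℕ} (ha : Odd a) (hb : Odd b) (hab : a < b) (hc : Nat.Coprime a b)
    (v : Fin b → ℝ) : v ∈ Red a b ↔ (∀ i, 0 < v i) ∧ ∃ z : ℕ → ℝ, (∀ i : Fin b, z i = v i) ∧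
      IsSol a b z ∧ Tendsto z atTop (𝓝 (√2)) := by
  have ha0 := ha.pos
  constructor
  · rintro ⟨hv, hL⟩
    refine ⟨hv, flp (wsol a b (ww v)), ?_, ?_, ?_⟩
    · intro i
      have hi := hv i
      unfold flp
      rw [wsol_init i.2]
      unfold ww
      rw [dif_pos i.2]
      split_ifs
      · rfl
      · have : v ⟨i, i.2⟩ = v i := rfl
        rw [this]; field_simp
    · apply isSol_flp ha hb hab.le _ (wsol_isW ha0 hab.le _)
      exact (wsol_isW ha0 hab.le _).pos (by omega) ha0 hab.le
        (fun n hn => by rw [wsol_init hn]; exact ww_pos hv n)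
    · have := LL_tendsto ha0 hab.le hc (v := ww v) (fun n _ => ww_pos hv n)
      rw [hL] at this
      exact flp_tendsto this
  · rintro ⟨hv, z, hz0, hz, hzt⟩
    refine ⟨hv, ?_⟩
    have hzp : ∀ n, 0 < z n := hz.pos ha0 hab.le (fun n hn => by
      have := hz0 ⟨n, hn⟩
      simp only at this
      rw [this]; exact hv _)
    have h1 : LL a b (ww v) = LL a b (flp z) := by
      apply LL_congr ha0 hab.le hc (fun n _ => ww_pos hv n)
      intro n hn
      unfold ww flp
      rw [dif_pos hn]
      have := hz0 ⟨n, hn⟩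
      simp only at this
      rw [this]
    rw [h1]
    exact LL_eq ha0 hab.le hc (isW_flp ha hb hab.le hzp hz) (fun n _ => flp_pos hzp n)
      (flp_tendsto hzt)

/-- The reduced basin has empty interior. -/
theorem interior_Red {a b : ℕ} (ha : Odd a) (hab : a < b) (hc : Nat.Coprime a b) :
    interior (Red a b) = ∅ := by
  have ha0 := ha.pos
  by_contra hne
  obtain ⟨v, hv⟩ := Set.nonempty_iff_ne_empty.2 hne
  set g : ℝ → (Fin b → ℝ) := fun c i => if Even (i : ℕ) then c * v i else v i / c with hg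
  have hg1 : g 1 = v := by
    funext i; simp only [hg]; split_ifs <;> simp
  have hcont : ContinuousAt g 1 := by
    rw [continuousAt_pi]
    intro i
    simp only [hg]
    split_ifs
    · exact continuousAt_id.mul continuousAt_const
    · exact continuousAt_const.div continuousAt_id one_ne_zero
  have hnhds : ∀ᶠ c in 𝓝 (1 : ℝ), g c ∈ Red a b := by
    apply hcont
    rw [hg1]
    exact mem_interior_iff_mem_nhds.1 hv
  have hpos : ∀ᶠ c in 𝓝 (1 : ℝ), 0 < c := lt_mem_nhds one_pos
  have hfreq : ∃ᶠ c in 𝓝 (1 : ℝ), c ≠ 1 := by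
    have : (𝓝[≠] (1 : ℝ)).NeBot := inferInstance
    rw [Filter.Frequently]
    intro h
    have h2 : ∀ᶠ c in 𝓝[≠] (1 : ℝ), False := by
      filter_upwards [nhdsWithin_le_nhds h, self_mem_nhdsWithin] with c h1 h2
      exact h1 h2
    have h3 : (𝓝[≠] (1 : ℝ)) = ⊥ := by simpa using h2
    exact this.ne h3
  obtain ⟨c, hc1, hc2, hc3⟩ := (hfreq.and_eventually (hnhds.and hpos)).exists
  have hvR : v ∈ Red a b := interior_subset hv
  obtain ⟨hvp, hvL⟩ := hvR
  have h1 := hc2.2
  have h2 : LL a b (ww (g c)) = LL a b (fun n => c * ww v n) := by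
    apply LL_congr ha0 hab.le hc (fun n _ => ww_pos hc2.1 n)
    intro n hn
    have hvn := hvp ⟨n, hn⟩
    unfold ww
    rw [dif_pos hn, dif_pos hn]
    simp only [hg]
    split_ifs
    · rfl
    · field_simp
  rw [h2, LL_smul ha0 hab.le hc (fun n _ => ww_pos hvp n) hc3, hvL] at h1
  have h3 : (√2 : ℝ) ≠ 0 := by positivity
  apply hc1
  have : (c - 1) * √2 = 0 := by linarith
  rcases mul_eq_zero.1 this with h | h
  · linarith
  · exact absurd h h3

theorem div_lt_aux {i d b' l : ℕ} (hi : i < l + 1) (hl : l + 1 = d * b') : i / d < b' := by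
  rw [hl] at hi
  exact Nat.div_lt_of_lt_mul hi

/-- The slice of the basin is the reduced basin. -/
theorem slice_eq {a' b' d k l : ℕ} (ha : Odd a') (hb : Odd b') (hab : a' < b')
    (hc : Nat.Coprime a' b') (hd : 0 < d) (hk : k + 1 = d * a') (hl : l + 1 = d * b')
    (f : Fin (l + 1) → MvPolynomial (Fin b') ℝ)
    (hf : ∀ i : Fin (l + 1), f i = if h : d ∣ (i : ℕ) then
      MvPolynomial.X ⟨(i : ℕ) / d, div_lt_aux i.2 hl⟩ else MvPolynomial.C (√2)) :
    {x : Fin b' → ℝ | (fun i => MvPolynomial.eval x (f i)) ∈ BasinM k l l} = Red a' b' := by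
  have hs2 : (0 : ℝ) < √2 := by positivity
  have hkl : k < l := by
    have : d * a' < d * b' := Nat.mul_lt_mul_of_pos_left hab hd
    omega
  have hval : ∀ (x : Fin b' → ℝ) (i : Fin (l + 1)), MvPolynomial.eval x (f i) =
      if h : d ∣ (i : ℕ) then x ⟨(i : ℕ) / d, div_lt_aux i.2 hl⟩ else √2 := by
    intro x i
    rw [hf i]
    split_ifs <;> simp
  ext v
  rw [mem_Red_iff ha hb hab hc]
  simp only [Set.mem_setOf_eq, BasinM]
  constructor
  · rintro ⟨hp, x, hx0, hx, hxt⟩
    have hidx : ∀ i : Fin b', d * (i : ℕ) < l + 1 := by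
      intro i
      rw [hl]
      exact Nat.mul_lt_mul_of_pos_left i.2 hd
    have hvi : ∀ i : Fin b', MvPolynomial.eval v (f ⟨d * i, hidx i⟩) = v i := by
      intro i
      rw [hval, dif_pos ⟨i, rfl⟩]
      congr 1
      ext
      simp [Nat.mul_div_cancel_left _ hd]
    refine ⟨fun i => ?_, fun j => x (d * j), fun i => ?_, fun n => ?_, ?_⟩
    · rw [← hvi i]; exact hp _
    · rw [← hvi i, ← hx0 ⟨d * i, hidx i⟩]
    · have h1 := hx (d * n)
      have e1 : d * n + l + 1 = d * (n + b') := by rw [mul_add, ← hl]; ring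
      have e2 : d * n + l - k = d * (n + b' - a') := by
        have : n + b' - a' + a' = n + b' := by omega
        have h3 : d * (n + b' - a') + d * a' = d * n + d * b' := by
          rw [← mul_add, this, mul_add]
        omega
      have e3 : d * n + l - l = d * n := by omega
      rw [e1, e2, e3] at h1
      exact h1
    · exact hxt.comp (tendsto_id.const_mul_atTop' hd)
  · rintro ⟨hp, z, hz0, hz, hzt⟩
    refine ⟨fun i => ?_, fun n => if d ∣ n then z (n / d) else √2, fun i => ?_, fun n => ?_, ?_⟩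
    · rw [hval]; split_ifs
      · exact hp _
      · exact hs2
    · rw [hval]
      beta_reduce
      by_cases h : d ∣ (i : ℕ)
      · rw [dif_pos h, if_pos h]
        have hlt : (i : ℕ) / d < b' := div_lt_aux i.2 hl
        exact hz0 ⟨(i : ℕ) / d, hlt⟩
      · rw [dif_neg h, if_neg h]
    · have e3 : n + l - l = n := by omega
      rw [e3]
      have d1 : d ∣ n + l + 1 ↔ d ∣ n := by
        have : n + l + 1 = n + d * b' := by omega
        rw [this]; exact (Nat.dvd_add_left ⟨b', rfl⟩)
      have hle : d * a' ≤ d * b' := Nat.mul_le_mul_left _ hab.le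
      have e4 : n + l - k = n + d * (b' - a') := by
        rw [Nat.mul_sub]; omega
      have d2 : d ∣ n + l - k ↔ d ∣ n := by
        rw [e4]; exact (Nat.dvd_add_left ⟨_, rfl⟩)
      beta_reduce
      by_cases h : d ∣ n
      · rw [if_pos (d1.2 h), if_pos (d2.2 h), if_pos h]
        obtain ⟨j, rfl⟩ := h
        have e5 : (d * j + l + 1) / d = j + b' := by
          have : d * j + l + 1 = d * (j + b') := by rw [mul_add, ← hl]; ring
          rw [this, Nat.mul_div_cancel_left _ hd]
        have e6 : (d * j + l - k) / d = j + b' - a' := by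
          have : d * j + l - k = d * (j + b' - a') := by
            rw [e4, ← mul_add]; congr 1; omega
          rw [this, Nat.mul_div_cancel_left _ hd]
        rw [e5, e6, Nat.mul_div_cancel_left _ hd]
        exact hz j
      · rw [if_neg (by rw [d1]; exact h), if_neg (by rw [d2]; exact h), if_neg h]
        have : (1 : ℝ) / √2 + 1 / √2 = √2 := by
          rw [← add_div]
          rw [div_eq_iff hs2.ne', Real.mul_self_sqrt (by norm_num)]
          norm_num
        exact this.symm
    · rw [Metric.tendsto_atTop] at hzt ⊢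
      intro ε hε
      obtain ⟨N, hN⟩ := hzt ε hε
      refine ⟨d * N, fun n hn => ?_⟩
      split_ifs with h
      · apply hN
        exact (Nat.le_div_iff_mul_le hd).2 (by rw [mul_comm]; exact hn)
      · rw [dist_self]; exact hε

/-- Non-semialgebraicity from Zariski density of the reduced basins. -/
theorem not_semialgebraic_of_red
    (hred : ∀ a b : ℕ, Odd a → Odd b → a < b → Nat.Coprime a b →
      ∀ P : MvPolynomial (Fin b) ℝ, P ≠ 0 → ∃ v ∈ Red a b, MvPolynomial.eval v P ≠ 0)
    {k l : ℕ} (hkl : k < l) (hv : padicValNat 2 (k + 1) = padicValNat 2 (l + 1)) :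
    ¬ Semialgebraic (BasinM k l l) := by
  intro hsa
  obtain ⟨a', b', hc, hk, hl⟩ : ∃ a' b', Nat.Coprime a' b' ∧
      k + 1 = Nat.gcd (k + 1) (l + 1) * a' ∧ l + 1 = Nat.gcd (k + 1) (l + 1) * b' := by
    obtain ⟨a', b', hc, hk, hl⟩ := Nat.exists_coprime (k + 1) (l + 1)
    exact ⟨a', b', hc, by rw [mul_comm]; exact hk, by rw [mul_comm]; exact hl⟩
  set d := Nat.gcd (k + 1) (l + 1) with hd
  have hd0 : 0 < d := Nat.gcd_pos_of_pos_left _ (by omega)
  have ha0 : a' ≠ 0 := by rintro rfl; simp at hk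
  have hb0 : b' ≠ 0 := by rintro rfl; simp at hl
  have hab : a' < b' := by
    by_contra h
    have : d * b' ≤ d * a' := Nat.mul_le_mul_left _ (by omega)
    omega
  have hvv : padicValNat 2 a' = padicValNat 2 b' := by
    have h1 : padicValNat 2 (k + 1) = padicValNat 2 d + padicValNat 2 a' := by
      conv_lhs => rw [hk]
      exact padicValNat.mul hd0.ne' ha0
    have h2 : padicValNat 2 (l + 1) = padicValNat 2 d + padicValNat 2 b' := by
      conv_lhs => rw [hl]
      exact padicValNat.mul hd0.ne' hb0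
    omega
  have hodd : Odd a' ∧ Odd b' := by
    by_cases h : 2 ∣ a'
    · have h1 : 1 ≤ padicValNat 2 a' := one_le_padicValNat_of_dvd ha0 h
      have h2 : 2 ∣ b' := by
        by_contra h3
        have := padicValNat.eq_zero_of_not_dvd h3
        omega
      have h3 : 2 ∣ Nat.gcd a' b' := Nat.dvd_gcd h h2
      rw [hc] at h3
      omega
    · have h0 := padicValNat.eq_zero_of_not_dvd h
      have h2 : ¬ 2 ∣ b' := by
        intro h3
        have : 1 ≤ padicValNat 2 b' := one_le_padicValNat_of_dvd hb0 h3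
        omega
      exact ⟨Nat.not_even_iff_odd.1 (fun h' => h h'.two_dvd),
        Nat.not_even_iff_odd.1 (fun h' => h2 h'.two_dvd)⟩
  obtain ⟨ha, hb⟩ := hodd
  let f : Fin (l + 1) → MvPolynomial (Fin b') ℝ := fun i => if h : d ∣ (i : ℕ) then
      MvPolynomial.X ⟨(i : ℕ) / d, div_lt_aux i.2 hl⟩ else MvPolynomial.C (√2)
  have h1 := Pool.Agent.Lib_helper48.RB.semialg_preimage f hsa
  rw [slice_eq ha hb hab hc hd0 hk hl f (fun i => rfl)] at h1
  obtain ⟨Q, hQ, hQ2⟩ := Pool.Agent.Lib_helper48.RB.semialg_poly h1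
  obtain ⟨v, hv1, hv2⟩ := hred a' b' ha hb hab hc Q hQ
  rcases hQ2 v hv2 with h | h
  · rw [interior_Red ha hab hc] at h
    exact h
  · exact interior_subset h hv1

end Pool.Agent.Lib_helper65.RB
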