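import Pool.Agent.Lib_helper65.RB.RedGe
import Pool.Agent.Lib_helper65.RB.Slice

/-!
# Assembly
-/

namespace Pool.Agent.Lib_helper65.RB

open Filter Topology Polynomial

theorem red_all
    (no_rel_irrational : ∀ (G : ℝ[X][X]) (_ : G ≠ 0) (β : ℝ) (_ : Irrational β)
      (l : ℝ → ℝ) (m M : ℝ) (_ : 0 < m)
      (_ : ∀ t, 0 < t → t < 1 → m * t ^ β ≤ l t ∧ l t ≤ M * t ^ β)
      (_ : ∀ t, 0 < t → t < 1 → evalEval t (l t) G = 0), False)
    (red13 : ∀ P : MvPolynomial (Fin 3) ℝ, P ≠ 0 → ∃ v ∈ Red 1 3, MvPolynomial.eval v P ≠ 0)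
    (red15 : ∀ P : MvPolynomial (Fin 5) ℝ, P ≠ 0 → ∃ v ∈ Red 1 5, MvPolynomial.eval v P ≠ 0)
    (a b : ℕ) (ha : Odd a) (hb : Odd b) (hab : a < b) (hc : Nat.Coprime a b)
    (P : MvPolynomial (Fin b) ℝ) (hP : P ≠ 0) : ∃ v ∈ Red a b, MvPolynomial.eval v P ≠ 0 := by
  by_cases hN : 8 ≤ a + b
  · exact red_ge no_rel_irrational ha hb hab hc hN P hP
  · have ha0 := ha.pos
    have hb7 : b < 7 := by omega
    interval_cases b
    · omega
    · omega
    · exact absurd hb (by decide)
    · have : a = 1 := by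
        have : a ≠ 2 := by rintro rfl; exact absurd ha (by decide)
        omega
      subst this
      exact red13 P hP
    · exact absurd hb (by decide)
    · have : a = 1 := by
        have : a ≠ 2 := by rintro rfl; exact absurd ha (by decide)
        omega
      subst this
      exact red15 P hP
    · exact absurd hb (by decide)

theorem not_semialgebraic
    (hred : ∀ a b : ℕ, Odd a → Odd b → a < b → Nat.Coprime a b →
      ∀ P : MvPolynomial (Fin b) ℝ, P ≠ 0 → ∃ v ∈ Red a b, MvPolynomial.eval v P ≠ 0)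
    (k l : ℕ) (hkl : k ≠ l) (hv : padicValNat 2 (k + 1) = padicValNat 2 (l + 1)) :
    ¬ Semialgebraic (Basin k l) := by
  unfold Basin
  obtain ⟨m, hm⟩ : ∃ m, m = max k l := ⟨_, rfl⟩
  rw [← hm]
  rcases Nat.lt_or_gt_of_ne hkl with h | h
  · obtain rfl : m = l := by omega
    exact not_semialgebraic_of_red hred h hv
  · obtain rfl : m = k := by omega
    rw [BasinM_symm]
    exact not_semialgebraic_of_red hred h hv.symm

end Pool.Agent.Lib_helper65.RB
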