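import Mathlib

/-!
# An algebraic function cannot be comparable to an irrational power
-/

namespace Pool.Agent.Lib_helper65.RB

open Filter Topology Polynomial

theorem evalEval_eq_sum (G : ℝ[X][X]) : ∃ R : Finset (ℕ × ℕ),
    (∀ x y : ℝ, evalEval x y G = ∑ p ∈ R, (G.coeff p.2).coeff p.1 * x ^ p.1 * y ^ p.2) ∧
    ∀ p, (G.coeff p.2).coeff p.1 ≠ 0 → p ∈ R := by
  classical
  obtain ⟨N, hN⟩ : ∃ N : ℕ, ∀ j ∈ Finset.range (G.natDegree + 1), (G.coeff j).natDegree < N := by
    refine ⟨(Finset.range (G.natDegree + 1)).sup (fun j => (G.coeff j).natDegree) + 1, ?_⟩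
    intro j hj
    exact Nat.lt_succ_of_le (Finset.le_sup (f := fun j => (G.coeff j).natDegree) hj)
  refine ⟨Finset.range N ×ˢ Finset.range (G.natDegree + 1), ?_, ?_⟩
  · intro x y
    rw [Finset.sum_product_right]
    unfold evalEval
    rw [eval_eq_sum_range (p := G), eval_finsetSum]
    apply Finset.sum_congr rfl
    intro j hj
    rw [eval_mul, eval_pow, eval_C, eval_eq_sum_range' (hN j hj), Finset.sum_mul]
  · rintro ⟨i, j⟩ h
    simp only at h
    have hj : j ≤ G.natDegree := by
      by_contra hcon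
      have h2 : G.coeff j = 0 := coeff_eq_zero_of_natDegree_lt (by omega)
      rw [h2, coeff_zero] at h
      exact h rfl
    have hj' : j ∈ Finset.range (G.natDegree + 1) := Finset.mem_range.2 (by omega)
    have hi : i ≤ (G.coeff j).natDegree := le_natDegree_of_ne_zero h
    exact Finset.mem_product.2 ⟨Finset.mem_range.2 (lt_of_le_of_lt hi (hN j hj')), hj'⟩

theorem no_rel_irrational (G : ℝ[X][X]) (hG : G ≠ 0) (β : ℝ) (hβ : Irrational β) (l : ℝ → ℝ)
    (m M : ℝ) (hm : 0 < m)
    (h : ∀ t, 0 < t → t < 1 → m * t ^ β ≤ l t ∧ l t ≤ M * t ^ β)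
    (hz : ∀ t, 0 < t → t < 1 → evalEval t (l t) G = 0) : False := by
  classical
  obtain ⟨R, hR1, hR2⟩ := evalEval_eq_sum G
  set f : ℕ × ℕ → ℝ := fun p => p.1 + p.2 * β with hf
  set S := R.filter (fun p => (G.coeff p.2).coeff p.1 ≠ 0) with hS
  have hSne : S.Nonempty := by
    have : ∃ j, G.coeff j ≠ 0 := by
      by_contra hcon
      push Not at hcon
      exact hG (Polynomial.ext (fun j => by rw [hcon j, coeff_zero]))
    obtain ⟨j, hj⟩ := this
    have : ∃ i, (G.coeff j).coeff i ≠ 0 := by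
      by_contra hcon
      push Not at hcon
      exact hj (Polynomial.ext (fun i => by rw [hcon i, coeff_zero]))
    obtain ⟨i, hi⟩ := this
    exact ⟨(i, j), Finset.mem_filter.2 ⟨hR2 (i, j) hi, hi⟩⟩
  obtain ⟨p0, hp0, hmin⟩ := S.exists_min_image f hSne
  have ha0 : (G.coeff p0.2).coeff p0.1 ≠ 0 := (Finset.mem_filter.1 hp0).2
  -- distinct exponents
  have hinj : ∀ p : ℕ × ℕ, f p = f p0 → p = p0 := by
    intro p hp
    simp only [hf] at hp
    have h1 : ((p.2 : ℝ) - p0.2) * β = p0.1 - p.1 := by linarith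
    by_cases h2 : p.2 = p0.2
    · have h3 : (p.1 : ℝ) = p0.1 := by rw [h2] at h1; linarith
      have h4 : p.1 = p0.1 := by exact_mod_cast h3
      exact Prod.ext h4 h2
    · exfalso
      have h3 : ((p.2 : ℝ) - p0.2) ≠ 0 := by
        intro h4
        apply h2
        have : (p.2 : ℝ) = p0.2 := by linarith
        exact_mod_cast this
      have h4 : β = ((((p0.1 : ℚ) - p.1) / ((p.2 : ℚ) - p0.2) : ℚ) : ℝ) := by
        push_cast
        rw [eq_div_iff h3]
        linarith
      exact hβ ⟨_, h4.symm⟩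
  have hzS : ∀ t, 0 < t → t < 1 →
      ∑ p ∈ S, (G.coeff p.2).coeff p.1 * (t ^ p.1 * (l t) ^ p.2 / (t ^ p0.1 * (l t) ^ p0.2)) = 0 := by
    intro t ht0 ht1
    have h1 := hz t ht0 ht1
    rw [hR1] at h1
    have h2 : ∑ p ∈ R, (G.coeff p.2).coeff p.1 * t ^ p.1 * (l t) ^ p.2 =
        ∑ p ∈ S, (G.coeff p.2).coeff p.1 * t ^ p.1 * (l t) ^ p.2 := by
      rw [hS, Finset.sum_filter]
      apply Finset.sum_congr rfl
      intro p _
      split_ifs with h
      · rfl
      · push Not at h
        rw [h]; ring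
    rw [h2] at h1
    have h3 : ∀ p ∈ S, (G.coeff p.2).coeff p.1 *
        (t ^ p.1 * (l t) ^ p.2 / (t ^ p0.1 * (l t) ^ p0.2)) =
        (1 / (t ^ p0.1 * (l t) ^ p0.2)) * ((G.coeff p.2).coeff p.1 * t ^ p.1 * (l t) ^ p.2) := by
      intro p _; ring
    rw [Finset.sum_congr rfl h3, ← Finset.mul_sum, h1, mul_zero]
  -- limits of the terms
  have hlim : ∀ p ∈ S, Tendsto (fun t => (G.coeff p.2).coeff p.1 *
      (t ^ p.1 * (l t) ^ p.2 / (t ^ p0.1 * (l t) ^ p0.2))) (𝓝[>] 0)
      (𝓝 (if p = p0 then (G.coeff p0.2).coeff p0.1 else 0)) := by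
    intro p hp
    have hev : ∀ᶠ t : ℝ in 𝓝[>] 0, 0 < t ∧ t < 1 := by
      filter_upwards [self_mem_nhdsWithin, nhdsWithin_le_nhds (gt_mem_nhds (one_pos (α := ℝ)))]
        with t h1 h2
      exact ⟨h1, h2⟩
    by_cases hpp : p = p0
    · rw [if_pos hpp]
      apply Tendsto.congr' _ tendsto_const_nhds
      filter_upwards [hev] with t ht
      have htp : 0 < t ^ β := Real.rpow_pos_of_pos ht.1 _
      have hl : 0 < l t := lt_of_lt_of_le (by positivity) (h t ht.1 ht.2).1
      have ht0 := ht.1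
      rw [hpp, div_self (by positivity), mul_one]
    · rw [if_neg hpp]
      have hfp : 0 < f p - f p0 := by
        have h1 := hmin p hp
        rcases lt_or_eq_of_le h1 with h2 | h2
        · linarith
        · exact absurd (hinj p h2.symm) hpp
      have h0 : Tendsto (fun t : ℝ => (M ^ p.2 / m ^ p0.2) * t ^ (f p - f p0)) (𝓝[>] 0) (𝓝 0) := by
        have h1 : Tendsto (fun t : ℝ => t ^ (f p - f p0)) (𝓝[>] 0) (𝓝 0) := by
          have := (Real.continuousAt_rpow_const 0 (f p - f p0) (Or.inr hfp.le)).tendsto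
          rw [Real.zero_rpow hfp.ne'] at this
          exact this.mono_left nhdsWithin_le_nhds
        simpa using h1.const_mul (M ^ p.2 / m ^ p0.2)
      have h1 : Tendsto (fun t => t ^ p.1 * (l t) ^ p.2 / (t ^ p0.1 * (l t) ^ p0.2)) (𝓝[>] 0)
          (𝓝 0) := by
        apply tendsto_of_tendsto_of_tendsto_of_le_of_le' tendsto_const_nhds h0
        · filter_upwards [hev] with t ht
          have htp : 0 < t ^ β := Real.rpow_pos_of_pos ht.1 _
          have hl : 0 < l t := lt_of_lt_of_le (by positivity) (h t ht.1 ht.2).1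
          have ht0 := ht.1
          positivity
        · filter_upwards [hev] with t ht
          have htp : 0 < t ^ β := Real.rpow_pos_of_pos ht.1 _
          have hl : 0 < l t := lt_of_lt_of_le (by positivity) (h t ht.1 ht.2).1
          have ht0 := ht.1
          obtain ⟨hlo, hhi⟩ := h t ht.1 ht.2
          have e : M ^ p.2 / m ^ p0.2 * t ^ (f p - f p0) =
              t ^ p.1 * (M * t ^ β) ^ p.2 / (t ^ p0.1 * (m * t ^ β) ^ p0.2) := by
            rw [mul_pow, mul_pow, ← Real.rpow_natCast t p.1, ← Real.rpow_natCast t p0.1,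
              ← Real.rpow_mul_natCast ht0.le, ← Real.rpow_mul_natCast ht0.le,
              show f p - f p0 = ((p.1 : ℝ) + β * p.2) - ((p0.1 : ℝ) + β * p0.2) by
                simp only [hf]; ring,
              Real.rpow_sub ht0, Real.rpow_add ht0, Real.rpow_add ht0]
            have h1 := Real.rpow_pos_of_pos ht0 (p0.1 : ℝ)
            have h2 := Real.rpow_pos_of_pos ht0 (β * (p0.2 : ℝ))
            field_simp
          rw [e]
          apply div_le_div₀
          · have : 0 ≤ M * t ^ β := hl.le.trans hhi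
            positivity
          · exact mul_le_mul_of_nonneg_left (pow_le_pow_left₀ hl.le hhi _) (by positivity)
          · positivity
          · exact mul_le_mul_of_nonneg_left (pow_le_pow_left₀ (by positivity) hlo _)
              (by positivity)
      simpa using h1.const_mul ((G.coeff p.2).coeff p.1)
  have hsum := tendsto_finset_sum S hlim
  rw [Finset.sum_ite_eq' S p0, if_pos hp0] at hsum
  have hzero : Tendsto (fun t => ∑ p ∈ S, (G.coeff p.2).coeff p.1 *
      (t ^ p.1 * (l t) ^ p.2 / (t ^ p0.1 * (l t) ^ p0.2))) (𝓝[>] 0) (𝓝 0) := by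
    apply Tendsto.congr' _ tendsto_const_nhds
    filter_upwards [self_mem_nhdsWithin, nhdsWithin_le_nhds (gt_mem_nhds (one_pos (α := ℝ)))]
      with t h1 h2
    exact (hzS t h1 h2).symm
  exact ha0 (tendsto_nhds_unique hsum hzero)

end Pool.Agent.Lib_helper65.RB
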