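import Pool.Agent.Lib_helper65.RB.Red

/-!
# The reduced basin for `(a, b) = (1, 3)`: reduction to a functional equation
-/

namespace Pool.Agent.Lib_helper65.RB

open Filter Topology

/-- `w`-data of the state `(u, 1, v)`. -/
noncomputable def v13 (u v : ℝ) (n : ℕ) : ℝ := if n = 0 then u else if n = 1 then 2 else v

theorem v13_pos {u v : ℝ} (hu : 0 < u) (hv : 0 < v) (n : ℕ) : 0 < v13 u v n := by
  unfold v13
  split_ifs
  · exact hu
  · norm_num
  · exact hv

/-- The normalised limit. -/
noncomputable def Y13 (u v : ℝ) : ℝ := LL 1 3 (v13 u v) / √2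

theorem Y13_pos {u v : ℝ} (hu : 0 < u) (hv : 0 < v) : 0 < Y13 u v := by
  unfold Y13
  have := LL_pos (a := 1) (b := 3) one_pos (by norm_num) (by decide) (v := v13 u v)
    (fun n _ => v13_pos hu hv n)
  positivity

theorem Y13_eq {u v : ℝ} (hu : 0 < u) (hv : 0 < v) : Y13 u v * Y13 v (1 + v / u) = v := by
  have hc : Nat.Coprime 1 3 := by decide
  have hL := LL_pos (a := 1) (b := 3) one_pos (by norm_num) hc (v := v13 u v)
    (fun n _ => v13_pos hu hv n)
  have hv' : 0 < 1 + v / u := by positivity
  have hw := wsol_isW (a := 1) (b := 3) one_pos (by norm_num) (v13 u v)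
  have h0 : ∀ n < 3, 0 < wsol 1 3 (v13 u v) n := by
    intro n hn; rw [wsol_init hn]; exact v13_pos hu hv n
  have h1 := LL_shift_odd one_pos (by norm_num) hc hw h0 (N := 1) (by decide)
  have h2 : LL 1 3 (wsol 1 3 (v13 u v)) = LL 1 3 (v13 u v) :=
    LL_congr one_pos (by norm_num) hc h0 (fun n hn => wsol_init hn)
  rw [h2] at h1
  have hp := hw.pos (by norm_num) one_pos (by norm_num) h0
  have h3 : LL 1 3 (fun n => 2 / wsol 1 3 (v13 u v) (n + 1)) =
      LL 1 3 (fun n => (1 / v) * v13 v (1 + v / u) n) := by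
    apply LL_congr one_pos (by norm_num) hc
    · intro n _
      exact div_pos two_pos (hp _)
    · intro n hn
      interval_cases n
      · rw [wsol_init (by norm_num)]
        simp only [v13]
        norm_num
        field_simp
      · rw [wsol_init (by norm_num)]
        simp only [v13]
        norm_num
        field_simp
      · have := hw 0
        norm_num at this
        rw [show 2 + 1 = 3 by norm_num, this, wsol_init (by norm_num), wsol_init (by norm_num)]
        simp only [v13, mean]
        rw [if_neg (by decide)]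
        norm_num
        field_simp
        ring
  rw [h3, LL_smul one_pos (by norm_num) hc (fun n _ => v13_pos hv hv' n) (by positivity)] at h1
  unfold Y13
  have hs : √2 * √2 = 2 := Real.mul_self_sqrt (by norm_num)
  have hs0 : √2 ≠ 0 := by positivity
  have h4 : LL 1 3 (v13 v (1 + v / u)) = v * (2 / LL 1 3 (v13 u v)) := by
    rw [← h1]; field_simp
  rw [h4]
  field_simp
  nlinarith

theorem red13_of
    (no_rel_13 : ∀ (Y : ℝ → ℝ → ℝ) (_ : ∀ u v, 0 < u → 0 < v → 0 < Y u v)
      (_ : ∀ u v, 0 < u → 0 < v → Y u v * Y v (1 + v / u) = v)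
      (P : MvPolynomial (Fin 3) ℝ) (_ : P ≠ 0)
      (_ : ∀ u v, 0 < u → 0 < v → MvPolynomial.eval ![u / Y u v, Y u v, v / Y u v] P = 0), False)
    (P : MvPolynomial (Fin 3) ℝ) (hP : P ≠ 0) :
    ∃ v ∈ Red 1 3, MvPolynomial.eval v P ≠ 0 := by
  by_contra hcon
  push Not at hcon
  have hc : Nat.Coprime 1 3 := by decide
  refine no_rel_13 Y13 (fun u v hu hv => Y13_pos hu hv) (fun u v hu hv => Y13_eq hu hv) P hP ?_
  intro u v hu hv
  apply hcon
  have hY := Y13_pos hu hv
  have hpos : ∀ i : Fin 3, 0 < (![u / Y13 u v, Y13 u v, v / Y13 u v] : Fin 3 → ℝ) i := by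
    intro i
    fin_cases i
    · simp; positivity
    · simpa using hY
    · simp; positivity
  refine ⟨hpos, ?_⟩
  have h1 : LL 1 3 (ww ![u / Y13 u v, Y13 u v, v / Y13 u v]) =
      LL 1 3 (fun n => (1 / Y13 u v) * v13 u v n) := by
    apply LL_congr one_pos (by norm_num) hc (fun n _ => ww_pos hpos n)
    intro n hn
    unfold ww
    rw [dif_pos hn]
    interval_cases n
    · simp [v13]; field_simp
    · simp [v13]; field_simp
    · simp [v13]; field_simp
  rw [h1, LL_smul one_pos (by norm_num) hc (fun n _ => v13_pos hu hv n) (by positivity)]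
  unfold Y13
  have hL := LL_pos (a := 1) (b := 3) one_pos (by norm_num) hc (v := v13 u v)
    (fun n _ => v13_pos hu hv n)
  field_simp

end Pool.Agent.Lib_helper65.RB
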