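import Pool.Agent.Lib_helper65.RB.RedGe
import Pool.Agent.Lib_helper35.RB_OSC
import Pool.Agent.Lib_helper14.RB.IR3

/-!
# The reduced basin for `(a, b) = (1, 5)` is Zariski dense
-/

namespace Pool.Agent.Lib_helper65.RB

open Filter Topology Polynomial

/-- The model data. -/
noncomputable def v15 (t : ℝ) (n : ℕ) : ℝ :=
  if n = 0 then 2 else if n = 1 then 2 else if n = 2 then 1 else t

/-- The base point. -/
noncomputable def c15 (i : Fin 5) : ℝ :=
  if (i : ℕ) = 0 then 2 else if (i : ℕ) = 1 then 1 else if (i : ℕ) = 2 then 1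
    else if (i : ℕ) = 3 then 2 else 1

theorem c15_pos (i : Fin 5) : 1 ≤ c15 i := by
  unfold c15
  split_ifs <;> norm_num

theorem v15_pos {t : ℝ} (ht : 0 < t) (n : ℕ) : 0 < v15 t n := by
  unfold v15
  split_ifs
  · norm_num
  · norm_num
  · norm_num
  · exact ht

theorem vcurve_bounds {c : Fin 5 → ℝ} {ε : ℝ} (hε : 0 < ε)
    (hc : ∀ i, c15 i ≤ c i ∧ c i ≤ c15 i + ε) {t : ℝ} (ht : 0 < t) (n : ℕ) (hn : n < 5) :
    (1 / (1 + ε)) * v15 t n ≤ vcurve 1 c t n ∧ vcurve 1 c t n ≤ (1 + ε) * v15 t n := by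
  have hk : ∀ k : ℕ, ∀ hk : k < 5, c15 ⟨k, hk⟩ ≤ c ⟨k, hk⟩ ∧ c ⟨k, hk⟩ ≤ c15 ⟨k, hk⟩ + ε :=
    fun k hk => hc ⟨k, hk⟩
  have e1 : 1 / (1 + ε) ≤ 1 := by
    rw [div_le_one (by positivity)]; linarith
  have hcn := hk n hn
  have hcpos : 0 < c ⟨n, hn⟩ := by linarith [c15_pos ⟨n, hn⟩, hcn.1]
  unfold vcurve ww
  rw [dif_pos hn]
  interval_cases n
  · simp only [c15, v15] at *
    norm_num at hcn ⊢
    constructor
    · have : (1 + ε)⁻¹ ≤ 1 := by rw [← one_div]; exact e1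
      nlinarith
    · nlinarith
  · simp only [c15, v15] at *
    norm_num at hcn ⊢
    have hcpos' : 0 < c 1 := by linarith [hcn.1]
    constructor
    · rw [le_div_iff₀ hcpos', ← one_div, div_mul_eq_mul_div, div_mul_eq_mul_div,
        div_le_iff₀ (by positivity)]
      nlinarith
    · rw [div_le_iff₀ hcpos']
      nlinarith
  · simp only [c15, v15] at *
    norm_num at hcn ⊢
    constructor
    · have : (1 + ε)⁻¹ ≤ 1 := by rw [← one_div]; exact e1
      nlinarith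
    · nlinarith
  · simp only [c15, v15] at *
    norm_num at hcn ⊢
    constructor
    · apply mul_le_mul_of_nonneg_right _ ht.le
      rw [le_div_iff₀ hcpos, ← one_div, div_mul_eq_mul_div, div_le_iff₀ (by positivity)]
      nlinarith
    · apply mul_le_mul_of_nonneg_right _ ht.le
      rw [div_le_iff₀ hcpos]
      nlinarith
  · simp only [c15, v15] at *
    norm_num at hcn ⊢
    constructor
    · apply mul_le_mul_of_nonneg_right _ ht.le
      have : (1 + ε)⁻¹ ≤ 1 := by rw [← one_div]; exact e1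
      linarith
    · apply mul_le_mul_of_nonneg_right _ ht.le
      linarith

theorem vcurve_mono {c : Fin 5 → ℝ} (hcp : ∀ i, 0 < c i) {t t' : ℝ} (ht : 0 < t) (h : t ≤ t')
    (n : ℕ) : vcurve 1 c t n ≤ vcurve 1 c t' n ∧ vcurve 1 c t' n ≤ (t' / t) * vcurve 1 c t n := by
  have hw := ww_pos hcp n
  have h1 : 1 ≤ t' / t := by rw [le_div_iff₀ ht]; linarith
  unfold vcurve
  split_ifs
  · constructor
    · exact mul_le_mul_of_nonneg_left h hw.le
    · apply le_of_eq; field_simp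
  · constructor
    · exact le_refl _
    · nlinarith

theorem continuousOn_LL {c : Fin 5 → ℝ} (hcp : ∀ i, 0 < c i) :
    ContinuousOn (fun t => LL 1 5 (vcurve 1 c t)) (Set.Ioo 0 1) := by
  have hvp : ∀ t, 0 < t → ∀ n < 5, 0 < vcurve 1 c t n := by
    intro t ht n _
    unfold vcurve
    apply mul_pos (ww_pos hcp n)
    split_ifs
    · exact ht
    · exact one_pos
  have hc15 : Nat.Coprime 1 5 := by decide
  have hcmp : ∀ t t', 0 < t → t ≤ t' → LL 1 5 (vcurve 1 c t) ≤ LL 1 5 (vcurve 1 c t') ∧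
      LL 1 5 (vcurve 1 c t') ≤ (t' / t) * LL 1 5 (vcurve 1 c t) := by
    intro t t' ht htt
    have ht' : 0 < t' := by linarith
    constructor
    · exact LL_mono one_pos (by norm_num) hc15 (hvp t ht) (fun n _ => (vcurve_mono hcp ht htt n).1)
    · rw [← LL_smul one_pos (by norm_num) hc15 (hvp t ht) (c := t' / t) (by positivity)]
      exact LL_mono one_pos (by norm_num) hc15 (hvp t' ht')
        (fun n _ => (vcurve_mono hcp ht htt n).2)
  intro t₀ ht₀
  have h0 := ht₀.1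
  apply ContinuousAt.continuousWithinAt
  set f := fun t => LL 1 5 (vcurve 1 c t) with hf
  have hfpos : ∀ t, 0 < t → 0 < f t := fun t ht => LL_pos one_pos (by norm_num) hc15 (hvp t ht)
  -- sandwich: min (t/t0) 1 * f t0 ≤ f t ≤ max (t/t0) 1 * f t0
  have hlo : ∀ᶠ t in 𝓝 t₀, min (t / t₀) 1 * f t₀ ≤ f t := by
    filter_upwards [lt_mem_nhds h0] with t ht
    rcases le_total t t₀ with h | h
    · have h1 := (hcmp t t₀ ht h).2
      have h2 : min (t / t₀) 1 = t / t₀ := min_eq_left (by rw [div_le_one h0]; exact h)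
      rw [h2]
      have : (t / t₀) * f t₀ ≤ (t / t₀) * ((t₀ / t) * f t) :=
        mul_le_mul_of_nonneg_left h1 (by positivity)
      have e : (t / t₀) * ((t₀ / t) * f t) = f t := by field_simp
      linarith
    · have h1 := (hcmp t₀ t h0 h).1
      have h2 : min (t / t₀) 1 = 1 := min_eq_right (by rw [le_div_iff₀ h0]; linarith)
      rw [h2, one_mul]; exact h1
  have hhi : ∀ᶠ t in 𝓝 t₀, f t ≤ max (t / t₀) 1 * f t₀ := by
    filter_upwards [lt_mem_nhds h0] with t ht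
    rcases le_total t t₀ with h | h
    · have h1 := (hcmp t t₀ ht h).1
      have h2 : max (t / t₀) 1 = 1 := max_eq_right (by rw [div_le_one h0]; exact h)
      rw [h2, one_mul]; exact h1
    · have h1 := (hcmp t₀ t h0 h).2
      have h2 : max (t / t₀) 1 = t / t₀ := max_eq_left (by rw [le_div_iff₀ h0]; linarith)
      rw [h2]; exact h1
  have c1 : ContinuousAt (fun t => min (t / t₀) 1 * f t₀) t₀ := by fun_prop
  have c2 : ContinuousAt (fun t => max (t / t₀) 1 * f t₀) t₀ := by fun_prop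
  have l1 : Tendsto (fun t => min (t / t₀) 1 * f t₀) (𝓝 t₀) (𝓝 (f t₀)) := by
    have := c1.tendsto
    rwa [div_self h0.ne', min_self, one_mul] at this
  have l2 : Tendsto (fun t => max (t / t₀) 1 * f t₀) (𝓝 t₀) (𝓝 (f t₀)) := by
    have := c2.tendsto
    rwa [div_self h0.ne', max_self, one_mul] at this
  exact tendsto_of_tendsto_of_tendsto_of_le_of_le' l1 l2 hlo hhi

theorem red15 (P : MvPolynomial (Fin 5) ℝ) (hP : P ≠ 0) :
    ∃ v ∈ Red 1 5, MvPolynomial.eval v P ≠ 0 := by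
  by_contra hcon
  push Not at hcon
  have hc15 : Nat.Coprime 1 5 := by decide
  obtain ⟨ε, hε⟩ : ∃ ε : ℝ, ε = 1 / 10 ^ 8 := ⟨_, rfl⟩
  have hε0 : 0 < ε := by rw [hε]; norm_num
  obtain ⟨c, hc1, hPc⟩ := exists_ne_near hP c15 hε0
  have hcp : ∀ i, 0 < c i := fun i => by linarith [(hc1 i).1, c15_pos i]
  obtain ⟨G, hG, hGz⟩ := curve_relation (by decide) (by decide) (by norm_num) hc15 hcon hcp hPc
  obtain ⟨M1, M2, hM2, hM, h1, h2⟩ := Pool.Agent.Lib_helper35.RB.osc
  have hM1 : 0 < M1 := by nlinarith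
  have hvp : ∀ t, 0 < t → ∀ n < 5, 0 < vcurve 1 c t n := by
    intro t ht n _
    unfold vcurve
    apply mul_pos (ww_pos hcp n)
    split_ifs
    · exact ht
    · exact one_pos
  have hLp : ∀ t, 0 < t → 0 < LL 1 5 (vcurve 1 c t) :=
    fun t ht => LL_pos one_pos (by norm_num) hc15 (hvp t ht)
  have hvv : ∀ t, 0 < t → ∀ n < 5, 0 < v15 t n := fun t ht n _ => v15_pos ht n
  have hlo : ∀ t, 0 < t → (1 / (1 + ε)) * LL 1 5 (v15 t) ≤ LL 1 5 (vcurve 1 c t) := by
    intro t ht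
    rw [← LL_smul one_pos (by norm_num) hc15 (hvv t ht) (c := 1 / (1 + ε)) (by positivity)]
    apply LL_mono one_pos (by norm_num) hc15
    · intro n hn
      have := v15_pos ht n
      positivity
    · exact fun n hn => (vcurve_bounds hε0 hc1 ht n hn).1
  have hhi : ∀ t, 0 < t → LL 1 5 (vcurve 1 c t) ≤ (1 + ε) * LL 1 5 (v15 t) := by
    intro t ht
    rw [← LL_smul one_pos (by norm_num) hc15 (hvv t ht) (c := 1 + ε) (by positivity)]
    exact LL_mono one_pos (by norm_num) hc15 (hvp t ht)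
      (fun n hn => (vcurve_bounds hε0 hc1 ht n hn).2)
  have hsol : ∀ t, 0 < t → IsW 1 5 (wsol 1 5 (v15 t)) ∧ wsol 1 5 (v15 t) 0 = 2 ∧
      wsol 1 5 (v15 t) 1 = 2 ∧ wsol 1 5 (v15 t) 2 = 1 ∧ wsol 1 5 (v15 t) 3 = t ∧
      wsol 1 5 (v15 t) 4 = t ∧ Tendsto (wsol 1 5 (v15 t)) atTop (𝓝 (LL 1 5 (v15 t))) := by
    intro t ht
    refine ⟨wsol_isW one_pos (by norm_num) _, ?_, ?_, ?_, ?_, ?_,
      LL_tendsto one_pos (by norm_num) hc15 (hvv t ht)⟩
    all_goals rw [wsol_init (by norm_num)]; simp [v15]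
  have hs2 : (0 : ℝ) < √2 := by positivity
  refine Pool.Agent.Lib_helper14.RB.no_rel_oscillation G hG
    (fun t => √2 / LL 1 5 (vcurve 1 c t)) ?_ ?_ (√2 / ((1 + ε) * M2)) (√2 * (1 + ε) / M1)
    (by positivity) ?_ ?_ ?_ (fun t ht _ => hGz t ht)
  · exact continuousOn_const.div (continuousOn_LL hcp) (fun t ht => (hLp t ht.1).ne')
  · intro t ht _
    have := hLp t ht
    positivity
  · rw [div_lt_div_iff₀ hM1 (by positivity)]
    have : (1 + ε) * ((1 + ε) * M2) < M1 := by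
      have : (1 + ε) * ((1 + ε) * M2) ≤ M2 * (1 + 1 / 10 ^ 7) := by
        rw [hε]; nlinarith
      linarith
    nlinarith
  · intro δ hδ
    obtain ⟨t, ht0, htδ, ht1, h⟩ := h2 δ hδ
    obtain ⟨s0, s1, s2, s3, s4, s5, s6⟩ := hsol t ht0
    have hL := h _ _ s0 s1 s2 s3 s4 s5 s6
    refine ⟨t, ht0, htδ, ht1, ?_⟩
    have hst : 0 < √t := Real.sqrt_pos.2 ht0
    have hL2 : LL 1 5 (vcurve 1 c t) ≤ (1 + ε) * (M2 * √t) :=
      (hhi t ht0).trans (mul_le_mul_of_nonneg_left hL (by positivity))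
    have hLpt := hLp t ht0
    rw [div_mul_eq_mul_div, div_le_div_iff₀ (by positivity) hLpt]
    nlinarith
  · intro δ hδ
    obtain ⟨t, ht0, htδ, ht1, h⟩ := h1 δ hδ
    obtain ⟨s0, s1, s2, s3, s4, s5, s6⟩ := hsol t ht0
    have hL := h _ _ s0 s1 s2 s3 s4 s5 s6
    refine ⟨t, ht0, htδ, ht1, ?_⟩
    have hst : 0 < √t := Real.sqrt_pos.2 ht0
    have hL2 : (1 / (1 + ε)) * (M1 * √t) ≤ LL 1 5 (vcurve 1 c t) :=
      (mul_le_mul_of_nonneg_left hL (by positivity)).trans (hlo t ht0)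
    have hLpt := hLp t ht0
    have hL3 : M1 * √t ≤ (1 + ε) * LL 1 5 (vcurve 1 c t) := by
      rw [div_mul_eq_mul_div, one_mul, div_le_iff₀ (by positivity)] at hL2
      linarith
    rw [div_mul_eq_mul_div, div_le_div_iff₀ hLpt hM1]
    nlinarith

end Pool.Agent.Lib_helper65.RB
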