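import Pool.Agent.Lib_helper65.RB.Slice

/-!
# Structure of the basin: rows, unique scaling, Zariski density
-/

namespace Pool.Agent.Lib_helper65.RB

open Filter Topology

theorem idx_lt {b' d l j r : ℕ} (hl : l + 1 = d * b') (hj : j < b') (hr : r < d) :
    d * j + r < l + 1 := by
  rw [hl]
  calc d * j + r < d * j + d := by omega
    _ = d * (j + 1) := by ring
    _ ≤ d * b' := Nat.mul_le_mul_left _ hj

/-- The rows of the initial vector. -/
def row {b' d l : ℕ} (hl : l + 1 = d * b') (v : Fin (l + 1) → ℝ) (r : ℕ) (hr : r < d)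
    (j : Fin b') : ℝ := v ⟨d * j + r, idx_lt hl j.2 hr⟩

theorem row_div_mod {b' d l : ℕ} (hd : 0 < d) (hl : l + 1 = d * b') (v : Fin (l + 1) → ℝ)
    (i : Fin (l + 1)) : row hl v ((i : ℕ) % d) (Nat.mod_lt _ hd) ⟨(i : ℕ) / d,
      div_lt_aux i.2 hl⟩ = v i := by
  unfold row
  congr 1
  ext
  simp [Nat.div_add_mod]

/-- Membership in the basin is membership of the rows in the reduced basin. -/
theorem mem_BasinM_iff {a' b' d k l : ℕ} (ha : Odd a') (hb : Odd b') (hab : a' < b')
    (hc : Nat.Coprime a' b') (hd : 0 < d) (hk : k + 1 = d * a') (hl : l + 1 = d * b')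
    (v : Fin (l + 1) → ℝ) :
    v ∈ BasinM k l l ↔ ∀ r (hr : r < d), row hl v r hr ∈ Red a' b' := by
  have hkl : k < l := by
    have : d * a' < d * b' := Nat.mul_lt_mul_of_pos_left hab hd
    omega
  constructor
  · rintro ⟨hp, x, hx0, hx, hxt⟩ r hr
    rw [mem_Red_iff ha hb hab hc]
    refine ⟨fun j => hp _, fun j => x (d * j + r), fun j => ?_, fun n => ?_, ?_⟩
    · exact hx0 ⟨d * j + r, idx_lt hl j.2 hr⟩
    · have h1 := hx (d * n + r)
      have e1 : d * n + r + l + 1 = d * (n + b') + r := by rw [mul_add, ← hl]; ring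
      have e2 : d * n + r + l - k = d * (n + b' - a') + r := by
        have : n + b' - a' + a' = n + b' := by omega
        have h3 : d * (n + b' - a') + d * a' = d * n + d * b' := by
          rw [← mul_add, this, mul_add]
        omega
      have e3 : d * n + r + l - l = d * n + r := by omega
      rw [e1, e2, e3] at h1
      exact h1
    · exact hxt.comp (tendsto_atTop_mono (fun n => Nat.le_add_right (d * n) r)
        (tendsto_id.const_mul_atTop' hd))
  · intro h
    have h' : ∀ r, ∃ z : ℕ → ℝ, ∀ hr : r < d, (∀ j : Fin b', 0 < row hl v r hr j) ∧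
        (∀ j : Fin b', z j = row hl v r hr j) ∧ IsSol a' b' z ∧
        Tendsto z atTop (𝓝 (√2)) := by
      intro r
      by_cases hr : r < d
      · obtain ⟨h1, z, h2, h3, h4⟩ := (mem_Red_iff ha hb hab hc _).1 (h r hr)
        exact ⟨z, fun _ => ⟨h1, h2, h3, h4⟩⟩
      · exact ⟨fun _ => 0, fun h => absurd h hr⟩
    choose z hz using h'
    refine ⟨fun i => ?_, fun n => z (n % d) (n / d), fun i => ?_, fun n => ?_, ?_⟩
    · rw [← row_div_mod hd hl v i]
      exact (hz _ (Nat.mod_lt _ hd)).1 _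
    · rw [← row_div_mod hd hl v i]
      exact (hz _ (Nat.mod_lt _ hd)).2.1 ⟨(i : ℕ) / d, div_lt_aux i.2 hl⟩
    · have e3 : n + l - l = n := by omega
      have hle : d * a' ≤ d * b' := Nat.mul_le_mul_left _ hab.le
      have e4 : n + l - k = n + d * (b' - a') := by
        rw [Nat.mul_sub]; omega
      have e1 : n + l + 1 = n + d * b' := by omega
      beta_reduce
      rw [e3, e4, e1, Nat.add_mul_mod_self_left, Nat.add_mul_mod_self_left,
        Nat.add_mul_div_left _ _ hd, Nat.add_mul_div_left _ _ hd]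
      have := (hz _ (Nat.mod_lt n hd)).2.2.1 (n / d)
      rw [this]
      congr 3
      generalize n / d = q
      omega
    · rw [Metric.tendsto_atTop']
      intro ε hε
      have h1 : ∀ᶠ j in atTop, ∀ r ∈ Finset.range d, dist (z r j) (√2) < ε := by
        rw [Filter.eventually_all_finset]
        intro r hr
        exact (Metric.tendsto_nhds.1 (hz r (Finset.mem_range.1 hr)).2.2.2) ε hε
      have h2 : Tendsto (fun n : ℕ => n / d) atTop atTop := Nat.tendsto_div_const_atTop hd.ne'
      obtain ⟨N, hN⟩ := eventually_atTop.1 (h2.eventually h1)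
      exact ⟨N, fun n hn => hN n hn.le _ (Finset.mem_range.2 (Nat.mod_lt _ hd))⟩

theorem row_scl_mem {a' b' d l : ℕ} (ha : 0 < a') (hab : a' < b')
    (hc : Nat.Coprime a' b') (hl : l + 1 = d * b')
    {v : Fin (l + 1) → ℝ} (hv : ∀ i, 0 < v i) {c : ZMod d → ℝ} (hcp : ∀ r, 0 < c r) (r : ℕ)
    (hr : r < d) :
    row hl (scl d v c) r hr ∈ Red a' b' ↔ c r * LL a' b' (ww (row hl v r hr)) = √2 := by
  have hd : 0 < d := by omega
  have hrow : ∀ j : Fin b', row hl (scl d v c) r hr j =
      if Even (j : ℕ) then row hl v r hr j * c r else row hl v r hr j / c r := by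
    intro j
    unfold row scl
    have e1 : (d * (j : ℕ) + r) / d = j := by
      rw [Nat.mul_add_div hd, Nat.div_eq_of_lt hr, add_zero]
    have e2 : ((d * (j : ℕ) + r : ℕ) : ZMod d) = (r : ZMod d) := by
      push_cast
      simp
    simp only [e1, e2]
  have hpos : ∀ j, 0 < row hl v r hr j := fun j => hv _
  have hpos' : ∀ j, 0 < row hl (scl d v c) r hr j := by
    intro j
    rw [hrow]
    have h1 := hpos j
    have h2 := hcp r
    split_ifs <;> positivity
  have h2 : LL a' b' (ww (row hl (scl d v c) r hr)) =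
      LL a' b' (fun n => c r * ww (row hl v r hr) n) := by
    apply LL_congr ha hab.le hc (fun n _ => ww_pos hpos' n)
    intro n hn
    have hvn := hpos ⟨n, hn⟩
    have hcr := hcp r
    unfold ww
    rw [dif_pos hn, dif_pos hn]
    rw [hrow]
    simp only
    split_ifs
    · ring
    · field_simp
  constructor
  · rintro ⟨_, h⟩
    rw [h2, LL_smul ha hab.le hc (fun n _ => ww_pos hpos n) (hcp r)] at h
    exact h
  · intro h
    refine ⟨hpos', ?_⟩
    rw [h2, LL_smul ha hab.le hc (fun n _ => ww_pos hpos n) (hcp r)]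
    exact h

theorem unique_scaling {a' b' d k l : ℕ} (ha : Odd a') (hb : Odd b') (hab : a' < b')
    (hc : Nat.Coprime a' b') (hd : 0 < d) (hk : k + 1 = d * a') (hl : l + 1 = d * b')
    (v : Fin (l + 1) → ℝ) (hv : ∀ i, 0 < v i) :
    ∃! c : ZMod d → ℝ, (∀ r, 0 < c r) ∧ scl d v c ∈ BasinM k l l := by
  have ha0 := ha.pos
  have : NeZero d := ⟨hd.ne'⟩
  have hLL : ∀ r (hr : r < d), 0 < LL a' b' (ww (row hl v r hr)) := by
    intro r hr
    exact LL_pos ha0 hab.le hc (fun n _ => ww_pos (fun j => hv _) n)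
  have hval : ∀ r : ZMod d, ((r.val : ℕ) : ZMod d) = r := ZMod.natCast_zmod_val
  refine ⟨fun r => √2 / LL a' b' (ww (row hl v r.val (ZMod.val_lt r))), ⟨?_, ?_⟩, ?_⟩
  · intro r
    have := hLL r.val (ZMod.val_lt r)
    positivity
  · rw [mem_BasinM_iff ha hb hab hc hd hk hl]
    intro r hr
    rw [row_scl_mem ha0 hab hc hl hv _ r hr]
    · have h1 := hLL r hr
      have h2 : ((r : ZMod d)).val = r := ZMod.val_cast_of_lt hr
      have h3 : ∀ s (hs : s < d), s = r →
          LL a' b' (ww (row hl v s hs)) = LL a' b' (ww (row hl v r hr)) := by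
        rintro s hs rfl; rfl
      rw [h3 _ _ h2]
      field_simp
    · intro r
      have := hLL r.val (ZMod.val_lt r)
      positivity
  · rintro c ⟨hcp, hcm⟩
    rw [mem_BasinM_iff ha hb hab hc hd hk hl] at hcm
    funext r
    have h1 := (row_scl_mem ha0 hab hc hl hv hcp _ (ZMod.val_lt r)).1 (hcm r.val (ZMod.val_lt r))
    rw [hval r] at h1
    have h2 := hLL r.val (ZMod.val_lt r)
    rw [eq_div_iff h2.ne']
    exact h1

/-- Zariski density of a product of Zariski dense sets. -/
theorem dense_rows {b' d l : ℕ} (hd : 0 < d) (hl : l + 1 = d * b') (S : Set (Fin b' → ℝ))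
    (hS : ∀ P : MvPolynomial (Fin b') ℝ, P ≠ 0 → ∃ v ∈ S, MvPolynomial.eval v P ≠ 0)
    (P : MvPolynomial (Fin (l + 1)) ℝ) (hP : P ≠ 0) :
    ∃ v : Fin (l + 1) → ℝ, (∀ r (hr : r < d), row hl v r hr ∈ S) ∧ MvPolynomial.eval v P ≠ 0 := by
  suffices h : ∀ n ≤ d, ∃ v : Fin (l + 1) → ℝ, (∀ r (hr : r < d), r < n → row hl v r hr ∈ S) ∧
      MvPolynomial.eval v P ≠ 0 by
    obtain ⟨v, h1, h2⟩ := h d le_rfl
    exact ⟨v, fun r hr => h1 r hr hr, h2⟩
  intro n
  induction n with
  | zero =>
    intro _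
    have : ∃ v, MvPolynomial.eval v P ≠ 0 := by
      by_contra hcon
      push Not at hcon
      exact hP (MvPolynomial.funext (fun x => by rw [hcon x, map_zero]))
    obtain ⟨v, hv⟩ := this
    exact ⟨v, fun r hr h => absurd h (by omega), hv⟩
  | succ n ih =>
    intro hn
    obtain ⟨v, h1, h2⟩ := ih (by omega)
    -- specialise all rows but row `n`
    let f : Fin (l + 1) → MvPolynomial (Fin b') ℝ := fun i => if (i : ℕ) % d = n then
      MvPolynomial.X ⟨(i : ℕ) / d, div_lt_aux i.2 hl⟩ else MvPolynomial.C (v i)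
    have hf : ∀ x : Fin b' → ℝ, MvPolynomial.eval x (MvPolynomial.bind₁ f P) =
        MvPolynomial.eval (fun i : Fin (l + 1) => if (i : ℕ) % d = n then
          x ⟨(i : ℕ) / d, div_lt_aux i.2 hl⟩ else v i) P := by
      intro x
      rw [MvPolynomial.eval, MvPolynomial.eval₂Hom_bind₁]
      congr 2
      funext i
      simp only [f]
      split_ifs <;> simp
    have hQ : MvPolynomial.bind₁ f P ≠ 0 := by
      intro h0
      have h3 := hf (row hl v n (by omega))
      rw [h0, map_zero] at h3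
      apply h2
      have : (fun i : Fin (l + 1) => if (i : ℕ) % d = n then
          row hl v n (by omega) ⟨(i : ℕ) / d, div_lt_aux i.2 hl⟩ else v i) = v := by
        funext i
        split_ifs with h
        · have := row_div_mod hd hl v i
          subst h
          exact this
        · rfl
      rw [this] at h3
      exact h3.symm
    obtain ⟨x, hxS, hx⟩ := hS _ hQ
    rw [hf] at hx
    refine ⟨_, ?_, hx⟩
    intro r hr hrn
    have hmod : ∀ j : ℕ, (d * j + r) % d = r := by
      intro j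
      rw [Nat.mul_add_mod, Nat.mod_eq_of_lt hr]
    have hdiv : ∀ j : ℕ, (d * j + r) / d = j := by
      intro j
      rw [Nat.mul_add_div hd, Nat.div_eq_of_lt hr, add_zero]
    by_cases hr2 : r = n
    · have : row hl (fun i : Fin (l + 1) => if (i : ℕ) % d = n then
          x ⟨(i : ℕ) / d, div_lt_aux i.2 hl⟩ else v i) r hr = x := by
        subst hr2
        funext j
        unfold row
        simp only [hmod, hdiv, if_true]
      rw [this]; exact hxS
    · have : row hl (fun i : Fin (l + 1) => if (i : ℕ) % d = n then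
          x ⟨(i : ℕ) / d, div_lt_aux i.2 hl⟩ else v i) r hr = row hl v r hr := by
        funext j
        unfold row
        simp only [hmod, if_neg hr2]
      rw [this]; exact h1 r hr (by omega)

/-- The reduced pair. -/
theorem reduced_pair {k l : ℕ} (hkl : k < l) (hv : padicValNat 2 (k + 1) = padicValNat 2 (l + 1)) :
    ∃ a' b', Odd a' ∧ Odd b' ∧ a' < b' ∧ Nat.Coprime a' b' ∧ 0 < Nat.gcd (k + 1) (l + 1) ∧
      k + 1 = Nat.gcd (k + 1) (l + 1) * a' ∧ l + 1 = Nat.gcd (k + 1) (l + 1) * b' := by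
  obtain ⟨a', b', hc, hk, hl⟩ : ∃ a' b', Nat.Coprime a' b' ∧
      k + 1 = Nat.gcd (k + 1) (l + 1) * a' ∧ l + 1 = Nat.gcd (k + 1) (l + 1) * b' := by
    obtain ⟨a', b', hc, hk, hl⟩ := Nat.exists_coprime (k + 1) (l + 1)
    exact ⟨a', b', hc, by rw [mul_comm]; exact hk, by rw [mul_comm]; exact hl⟩
  set d := Nat.gcd (k + 1) (l + 1) with hd
  have hd0 : 0 < d := Nat.gcd_pos_of_pos_left _ (by omega)
  have ha0 : a' ≠ 0 := by rintro rfl; simp at hk
  have hb0 : b' ≠ 0 := by rintro rfl; simp at hl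
  have hab : a' < b' := by
    by_contra h
    have : d * b' ≤ d * a' := Nat.mul_le_mul_left _ (by omega)
    omega
  have hvv : padicValNat 2 a' = padicValNat 2 b' := by
    have h1 : padicValNat 2 (k + 1) = padicValNat 2 d + padicValNat 2 a' := by
      conv_lhs => rw [hk]
      exact padicValNat.mul hd0.ne' ha0
    have h2 : padicValNat 2 (l + 1) = padicValNat 2 d + padicValNat 2 b' := by
      conv_lhs => rw [hl]
      exact padicValNat.mul hd0.ne' hb0
    omega
  have hodd : Odd a' ∧ Odd b' := by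
    by_cases h : 2 ∣ a'
    · have h1 : 1 ≤ padicValNat 2 a' := one_le_padicValNat_of_dvd ha0 h
      have h2 : 2 ∣ b' := by
        by_contra h3
        have := padicValNat.eq_zero_of_not_dvd h3
        omega
      have h3 : 2 ∣ Nat.gcd a' b' := Nat.dvd_gcd h h2
      rw [hc] at h3
      omega
    · have h0 := padicValNat.eq_zero_of_not_dvd h
      have h2 : ¬ 2 ∣ b' := by
        intro h3
        have : 1 ≤ padicValNat 2 b' := one_le_padicValNat_of_dvd hb0 h3
        omega
      exact ⟨Nat.not_even_iff_odd.1 (fun h' => h h'.two_dvd),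
        Nat.not_even_iff_odd.1 (fun h' => h2 h'.two_dvd)⟩
  exact ⟨a', b', hodd.1, hodd.2, hab, hc, hd0, hk, hl⟩

theorem basin_scaling (k l : ℕ) (hkl : k ≠ l)
    (hv : padicValNat 2 (k + 1) = padicValNat 2 (l + 1)) (v : Fin (max k l + 1) → ℝ)
    (hvp : ∀ i, 0 < v i) :
    ∃! c : ZMod (Nat.gcd (k + 1) (l + 1)) → ℝ,
      (∀ r, 0 < c r) ∧ scl (Nat.gcd (k + 1) (l + 1)) v c ∈ Basin k l := by
  unfold Basin
  obtain ⟨m, hm⟩ : ∃ m, m = max k l := ⟨_, rfl⟩
  revert v
  rw [← hm]
  intro v hvp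
  rcases Nat.lt_or_gt_of_ne hkl with h | h
  · obtain rfl : m = l := by omega
    obtain ⟨a', b', ha, hb, hab, hc, hd, hk, hl⟩ := reduced_pair h hv
    exact unique_scaling ha hb hab hc hd hk hl v hvp
  · obtain rfl : m = k := by omega
    obtain ⟨a', b', ha, hb, hab, hc, hd, hk, hl⟩ := reduced_pair h hv.symm
    rw [BasinM_symm, Nat.gcd_comm (m + 1) (l + 1)]
    exact unique_scaling ha hb hab hc hd hk hl v hvp

theorem basin_dense
    (hred : ∀ a b : ℕ, Odd a → Odd b → a < b → Nat.Coprime a b →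
      ∀ P : MvPolynomial (Fin b) ℝ, P ≠ 0 → ∃ v ∈ Red a b, MvPolynomial.eval v P ≠ 0)
    (k l : ℕ) (hkl : k ≠ l)
    (hv : padicValNat 2 (k + 1) = padicValNat 2 (l + 1))
    (P : MvPolynomial (Fin (max k l + 1)) ℝ) (hP : ∀ v ∈ Basin k l, MvPolynomial.eval v P = 0) :
    P = 0 := by
  revert P
  unfold Basin
  obtain ⟨m, hm⟩ : ∃ m, m = max k l := ⟨_, rfl⟩
  rw [← hm]
  intro P hP
  by_contra hne
  rcases Nat.lt_or_gt_of_ne hkl with h | h
  · obtain rfl : m = l := by omega
    obtain ⟨a', b', ha, hb, hab, hc, hd, hk, hl⟩ := reduced_pair h hv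
    obtain ⟨v, h1, h2⟩ := dense_rows hd hl (Red a' b') (hred a' b' ha hb hab hc) P hne
    exact h2 (hP v ((mem_BasinM_iff ha hb hab hc hd hk hl v).2 h1))
  · obtain rfl : m = k := by omega
    obtain ⟨a', b', ha, hb, hab, hc, hd, hk, hl⟩ := reduced_pair h hv.symm
    obtain ⟨v, h1, h2⟩ := dense_rows hd hl (Red a' b') (hred a' b' ha hb hab hc) P hne
    rw [BasinM_symm] at hP
    exact h2 (hP v ((mem_BasinM_iff ha hb hab hc hd hk hl v).2 h1))

end Pool.Agent.Lib_helper65.RB
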