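import Pool.Agent.Lib_helper65.RB.Final
import Pool.Agent.Lib_helper65.RB.Struct
import Pool.Agent.Lib_helper65.RB.R13
import Pool.Agent.Lib_helper65.RB.R15
import Pool.Agent.Lib_helper65.RB.IR1
import Pool.Agent.Lib_helper35.RB_F4

/-!
# Assembly, modulo the block `no_rel_13`
-/

namespace Pool.Agent.Lib_helper65.RB

theorem main
    (no_rel_13 : ∀ (Y : ℝ → ℝ → ℝ) (_ : ∀ u v, 0 < u → 0 < v → 0 < Y u v)
      (_ : ∀ u v, 0 < u → 0 < v → Y u v * Y v (1 + v / u) = v)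
      (P : MvPolynomial (Fin 3) ℝ) (_ : P ≠ 0)
      (_ : ∀ u v, 0 < u → 0 < v → MvPolynomial.eval ![u / Y u v, Y u v, v / Y u v] P = 0), False)
    (k l : ℕ) :
    (Basin k l = {v | ∀ i, 0 < v i} ↔ padicValNat 2 (k + 1) ≠ padicValNat 2 (l + 1)) ∧
    (k = l → Basin k l = {fun _ => √2}) ∧
    (k ≠ l → padicValNat 2 (k + 1) = padicValNat 2 (l + 1) →
      ¬ Semialgebraic (Basin k l) ∧
      (∀ P : MvPolynomial (Fin (max k l + 1)) ℝ,
        (∀ v ∈ Basin k l, MvPolynomial.eval v P = 0) → P = 0) ∧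
      (∀ v : Fin (max k l + 1) → ℝ, (∀ i, 0 < v i) →
        ∃! c : ZMod (Nat.gcd (k + 1) (l + 1)) → ℝ,
          (∀ r, 0 < c r) ∧ scl (Nat.gcd (k + 1) (l + 1)) v c ∈ Basin k l)) := by
  have hred := red_all no_rel_irrational (red13_of no_rel_13) red15
  refine ⟨⟨fun h1 h2 => ?_, fun h => Pool.Agent.Lib_helper35.RB.basin_all k l h⟩, ?_, ?_⟩
  · exact Pool.Agent.Lib_helper35.RB.basin_not_all k l h2 h1
  · rintro rfl
    exact Pool.Agent.Lib_helper35.RB.basin_self k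
  · intro hkl hv
    exact ⟨not_semialgebraic hred k l hkl hv, fun P hP => basin_dense hred k l hkl hv P hP,
      fun v hvp => basin_scaling k l hkl hv v hvp⟩

end Pool.Agent.Lib_helper65.RB
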