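import Pool.Agent.Lib_helper65.RB.Defs

/-!
# The mean recursion: monotonicity, band, convergence
-/

namespace Pool.Agent.Lib_helper65.RB

open Filter Topology

theorem mean_pos (j : ℕ) {x y : ℝ} (hx : 0 < x) (hy : 0 < y) : 0 < mean j x y := by
  unfold mean; split_ifs <;> positivity

theorem mean_mono (j : ℕ) {x y x' y' : ℝ} (hx : 0 < x) (hy : 0 < y) (hxx : x ≤ x') (hyy : y ≤ y') :
    mean j x y ≤ mean j x' y' := by
  unfold mean
  split_ifs
  · linarith
  · have hx' : 0 < x' := lt_of_lt_of_le hx hxx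
    have hy' : 0 < y' := lt_of_lt_of_le hy hyy
    rw [div_le_div_iff₀ (by positivity) (by positivity)]
    nlinarith [mul_pos hx hy, mul_pos hx' hy', mul_pos hx hx', mul_pos hy hy',
      mul_nonneg (mul_pos hy hy').le (sub_nonneg.2 hxx), mul_nonneg (mul_pos hx hx').le (sub_nonneg.2 hyy)]

theorem mean_smul (j : ℕ) {c : ℝ} (hc : 0 < c) (x y : ℝ) :
    mean j (c * x) (c * y) = c * mean j x y := by
  unfold mean
  split_ifs
  · ring
  · by_cases h : x + y = 0
    · have : c * x + c * y = 0 := by rw [← mul_add, h, mul_zero]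
      rw [h, this]; simp
    · rw [← mul_add]; field_simp

theorem mean_self (j : ℕ) {x : ℝ} (hx : 0 < x) : mean j x x = x := by
  unfold mean
  split_ifs
  · ring
  · field_simp; ring

theorem mean_comm (j : ℕ) (x y : ℝ) : mean j x y = mean j y x := by
  unfold mean
  split_ifs
  · ring
  · rw [add_comm y x]; ring

theorem mean_le_avg (j : ℕ) {x y : ℝ} (hx : 0 < x) (hy : 0 < y) : mean j x y ≤ (x + y) / 2 := by
  unfold mean
  split_ifs
  · exact le_refl _
  · rw [div_le_div_iff₀ (by positivity) (by positivity)]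
    nlinarith [sq_nonneg (x - y)]

theorem mean_le_max (j : ℕ) {x y M : ℝ} (hx : 0 < x) (hy : 0 < y) (h1 : x ≤ M) (h2 : y ≤ M) :
    mean j x y ≤ M := (mean_le_avg j hx hy).trans (by linarith)

theorem le_mean (j : ℕ) {x y m : ℝ} (hm : 0 < m) (h1 : m ≤ x) (h2 : m ≤ y) :
    m ≤ mean j x y := by
  have := mean_mono j hm hm h1 h2
  rwa [mean_self j hm] at this

section
variable {a b : ℕ} {w : ℕ → ℝ}

theorem IsW.pos (hb : 0 < b) (ha : 0 < a) (hab : a ≤ b) (h : IsW a b w)
    (h0 : ∀ n < b, 0 < w n) : ∀ n, 0 < w n := by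
  intro n
  induction n using Nat.strong_induction_on with
  | _ n ih =>
    by_cases hn : n < b
    · exact h0 n hn
    · obtain ⟨m, rfl⟩ : ∃ m, n = m + b := ⟨n - b, by omega⟩
      rw [h m]
      exact mean_pos _ (ih _ (by omega)) (ih _ (by omega))

/-- Band property from a window. -/
theorem IsW.band (hb : 0 < b) (ha : 0 < a) (hab : a ≤ b) (h : IsW a b w) {k : ℕ} {m M : ℝ}
    (hm : 0 < m) (h0 : ∀ n, k ≤ n → n < k + b → m ≤ w n ∧ w n ≤ M) :
    ∀ n, k ≤ n → m ≤ w n ∧ w n ≤ M := by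
  intro n
  induction n using Nat.strong_induction_on with
  | _ n ih =>
    intro hk
    by_cases hn : n < k + b
    · exact h0 n hk hn
    · obtain ⟨j, rfl⟩ : ∃ j, n = j + b := ⟨n - b, by omega⟩
      rw [h j]
      have h1 := ih (j + b - a) (by omega) (by omega)
      have h2 := ih j (by omega) (by omega)
      exact ⟨le_mean _ hm h1.1 h2.1, mean_le_max _ (lt_of_lt_of_le hm h1.1)
        (lt_of_lt_of_le hm h2.1) h1.2 h2.2⟩

/-- Comparison: if `w ≤ w'` on a window then `w ≤ w'` afterwards. -/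
theorem IsW.mono (hb : 0 < b) (ha : 0 < a) (hab : a ≤ b) {w' : ℕ → ℝ} (h : IsW a b w)
    (h' : IsW a b w') (hpos : ∀ n < b, 0 < w n) (h0 : ∀ n < b, w n ≤ w' n) : ∀ n, w n ≤ w' n := by
  have hp := h.pos hb ha hab hpos
  intro n
  induction n using Nat.strong_induction_on with
  | _ n ih =>
    by_cases hn : n < b
    · exact h0 n hn
    · obtain ⟨j, rfl⟩ : ∃ j, n = j + b := ⟨n - b, by omega⟩
      rw [h j, h' j]
      exact mean_mono _ (hp _) (hp _) (ih _ (by omega)) (ih _ (by omega))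

theorem IsW.smul {c : ℝ} (hc : 0 < c) (h : IsW a b w) : IsW a b (fun n => c * w n) := by
  intro n
  simp only
  rw [h n, mean_smul _ hc]

end

/-- Every integer `≥ a * b` is `i * a + j * b`. -/
theorem exists_repr {a b : ℕ} (ha : 0 < a) (hc : Nat.Coprime a b) {n : ℕ} (hn : a * b ≤ n) :
    ∃ i j : ℕ, n = i * a + j * b := by
  rcases Nat.lt_or_ge 1 a with h1 | h1
  · obtain ⟨c, hc1⟩ := Nat.exists_mul_mod_eq_one_of_coprime hc.symm h1
    refine ⟨(n - (n * c % a) * b) / a, n * c % a, ?_⟩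
    have hlt : n * c % a < a := Nat.mod_lt _ ha
    have hle : (n * c % a) * b ≤ n := le_trans (Nat.mul_le_mul_right b hlt.le) hn
    have hdvd : a ∣ n - (n * c % a) * b := by
      have h2 : (n * c % a) * b ≡ n [MOD a] := by
        have e1 : (n * c % a) * b ≡ (n * c) * b [MOD a] := (Nat.mod_modEq _ _).mul_right b
        have e2 : b * c ≡ 1 [MOD a] := by
          unfold Nat.ModEq; rw [hc1.2, Nat.mod_eq_of_lt h1]
        have e3 : (n * c) * b ≡ n * 1 [MOD a] := by
          have := e2.mul_left n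
          calc (n * c) * b = n * (b * c) := by ring
            _ ≡ n * 1 [MOD a] := this
        simpa using e1.trans e3
      exact (Nat.modEq_iff_dvd' hle).1 h2
    rw [Nat.div_mul_cancel hdvd]
    omega
  · have : a = 1 := by omega
    subst this
    exact ⟨n, 0, by simp⟩

/-- Deficits propagate along paths. -/
theorem IsW.deficit {a b : ℕ} {w : ℕ → ℝ} (ha : 0 < a) (hab : a ≤ b) (h : IsW a b w) {k : ℕ}
    {M : ℝ} (hp : ∀ n, k ≤ n → 0 < w n) (hM : ∀ n, k ≤ n → w n ≤ M) {n₀ : ℕ} (hn₀ : k + b ≤ n₀) :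
    ∀ i j : ℕ, (M - w n₀) / 2 ^ (i + j) ≤ M - w (n₀ + i * a + j * b) := by
  have stepb : ∀ n, k ≤ n → (M - w n) / 2 ≤ M - w (n + b) := by
    intro n hn
    have h1 := mean_le_avg (n + b) (hp (n + b - a) (by omega)) (hp n hn)
    rw [← h n] at h1
    have h2 := hM (n + b - a) (by omega)
    linarith
  have stepa : ∀ n, k + b ≤ n → (M - w n) / 2 ≤ M - w (n + a) := by
    intro n hn
    obtain ⟨m, hm⟩ : ∃ m, n + a = m + b := ⟨n + a - b, by omega⟩
    have hmk : k ≤ m := by omega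
    have h1 := mean_le_avg (m + b) (hp (m + b - a) (by omega)) (hp m hmk)
    rw [← h m, ← hm] at h1
    have h3 : n + a - a = n := by omega
    rw [h3] at h1
    have h2 := hM m hmk
    linarith
  intro i j
  induction j with
  | zero =>
    induction i with
    | zero => simp
    | succ i ih =>
      have h1 := stepa (n₀ + i * a + 0 * b) (by
        have : 0 ≤ i * a := Nat.zero_le _
        omega)
      have h2 : n₀ + (i + 1) * a + 0 * b = n₀ + i * a + 0 * b + a := by ring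
      rw [h2]
      refine le_trans ?_ h1
      have h3 : (M - w n₀) / 2 ^ (i + 1 + 0) = (M - w n₀) / 2 ^ (i + 0) / 2 := by
        rw [div_div]; congr 1
      rw [h3]
      linarith
  | succ j ih =>
    have h1 := stepb (n₀ + i * a + j * b) (by omega)
    have h2 : n₀ + i * a + (j + 1) * b = n₀ + i * a + j * b + b := by ring
    rw [h2]
    refine le_trans ?_ h1
    have h3 : (M - w n₀) / 2 ^ (i + (j + 1)) = (M - w n₀) / 2 ^ (i + j) / 2 := by
      rw [div_div]; congr 1
    rw [h3]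
    linarith

/-- One contraction step. -/
theorem IsW.contract {a b : ℕ} {w : ℕ → ℝ} (ha : 0 < a) (hab : a ≤ b) (hc : Nat.Coprime a b)
    (h : IsW a b w) {k : ℕ} {m M : ℝ} (hm : 0 < m) (hb : ∀ n, k ≤ n → m ≤ w n ∧ w n ≤ M) :
    ∃ k' m' M', m ≤ m' ∧ M' - m' ≤ (1 - 1 / 2 ^ (a * b + 2 * b)) * (M - m) ∧
      ∀ n, k' ≤ n → m' ≤ w n ∧ w n ≤ M' := by
  have hb0 : 0 < b := by omega
  obtain ⟨n₀, hn₀, hmin⟩ := (Finset.Ico (k + b) (k + 2 * b)).exists_min_image w
    ⟨k + b, by simp; omega⟩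
  rw [Finset.mem_Ico] at hn₀
  have hlow : ∀ n, k + b ≤ n → w n₀ ≤ w n ∧ w n ≤ M := by
    apply h.band hb0 ha hab (lt_of_lt_of_le hm (hb n₀ (by omega)).1)
    intro n h1 h2
    exact ⟨hmin n (Finset.mem_Ico.2 ⟨h1, by omega⟩), (hb n (by omega)).2⟩
  have hd := h.deficit ha hab (k := k) (M := M) (fun n hn => lt_of_lt_of_le hm (hb n hn).1)
    (fun n hn => (hb n hn).2) (n₀ := n₀) hn₀.1
  have hMw : 0 ≤ M - w n₀ := by have := (hb n₀ (by omega)).2; linarith
  set η : ℝ := 1 / 2 ^ (a * b + 2 * b) with hη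
  have hup : ∀ n, k + 2 * b + a * b ≤ n → w n₀ ≤ w n ∧ w n ≤ M - η * (M - w n₀) := by
    apply h.band hb0 ha hab (lt_of_lt_of_le hm (hb n₀ (by omega)).1)
    intro n h1 h2
    refine ⟨(hlow n (by omega)).1, ?_⟩
    obtain ⟨i, j, hij⟩ := exists_repr ha hc (n := n - n₀) (by omega)
    have h3 := hd i j
    have h4 : n₀ + i * a + j * b = n := by omega
    rw [h4] at h3
    have h5 : i + j ≤ a * b + 2 * b := by
      have e1 : i ≤ i * a := Nat.le_mul_of_pos_right i ha
      have e2 : j ≤ j * b := Nat.le_mul_of_pos_right j hb0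
      omega
    have h6 : η * (M - w n₀) ≤ (M - w n₀) / 2 ^ (i + j) := by
      rw [hη, one_div, inv_mul_eq_div]
      apply div_le_div_of_nonneg_left hMw (by positivity)
      exact pow_le_pow_right₀ (by norm_num) h5
    linarith
  refine ⟨k + 2 * b + a * b, w n₀, M - η * (M - w n₀), (hb n₀ (by omega)).1, ?_, hup⟩
  have h7 : m ≤ w n₀ := (hb n₀ (by omega)).1
  have h8 : η ≤ 1 := by
    rw [hη, div_le_one (by positivity)]
    exact one_le_pow₀ (by norm_num)
  nlinarith

/-- The mean recursion converges to a positive limit, inside every band. -/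
theorem IsW.converges {a b : ℕ} {w : ℕ → ℝ} (ha : 0 < a) (hab : a ≤ b) (hc : Nat.Coprime a b)
    (h : IsW a b w) (h0 : ∀ n < b, 0 < w n) : ∃ L : ℝ, 0 < L ∧ Tendsto w atTop (𝓝 L) := by
  have hb0 : 0 < b := by omega
  obtain ⟨n₁, hn₁, hmin⟩ := (Finset.range b).exists_min_image w ⟨0, by simp; omega⟩
  obtain ⟨n₂, hn₂, hmax⟩ := (Finset.range b).exists_max_image w ⟨0, by simp; omega⟩
  rw [Finset.mem_range] at hn₁ hn₂
  have hm0 : 0 < w n₁ := h0 n₁ hn₁
  have hband0 : ∀ n, 0 ≤ n → w n₁ ≤ w n ∧ w n ≤ w n₂ := by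
    apply h.band hb0 ha hab hm0
    intro n _ hn
    exact ⟨hmin n (by simp; omega), hmax n (by simp; omega)⟩
  set q : ℝ := 1 - 1 / 2 ^ (a * b + 2 * b) with hq
  have hq0 : 0 ≤ q := by
    rw [hq, sub_nonneg, div_le_one (by positivity)]
    exact one_le_pow₀ (by norm_num)
  have hq1 : q < 1 := by
    rw [hq]; have : (0 : ℝ) < 1 / 2 ^ (a * b + 2 * b) := by positivity
    linarith
  have key : ∀ r : ℕ, ∃ (k : ℕ) (m M : ℝ), w n₁ ≤ m ∧ M - m ≤ q ^ r * (w n₂ - w n₁) ∧
      ∀ n, k ≤ n → m ≤ w n ∧ w n ≤ M := by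
    intro r
    induction r with
    | zero => exact ⟨0, w n₁, w n₂, le_refl _, by simp, hband0⟩
    | succ r ih =>
      obtain ⟨k, m, M, h1, h2, h3⟩ := ih
      obtain ⟨k', m', M', h4, h5, h6⟩ := h.contract ha hab hc (lt_of_lt_of_le hm0 h1) h3
      refine ⟨k', m', M', h1.trans h4, h5.trans ?_, h6⟩
      rw [pow_succ]
      calc q * (M - m) ≤ q * (q ^ r * (w n₂ - w n₁)) := mul_le_mul_of_nonneg_left h2 hq0
        _ = q ^ r * q * (w n₂ - w n₁) := by ring
  have hcauchy : CauchySeq w := by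
    rw [Metric.cauchySeq_iff']
    intro ε hε
    have ht : Tendsto (fun r : ℕ => q ^ r * (w n₂ - w n₁)) atTop (𝓝 (0 * (w n₂ - w n₁))) :=
      (tendsto_pow_atTop_nhds_zero_of_lt_one hq0 hq1).mul_const _
    rw [zero_mul] at ht
    obtain ⟨r, hr⟩ := (ht.eventually (gt_mem_nhds hε)).exists
    obtain ⟨k, m, M, h1, h2, h3⟩ := key r
    refine ⟨k, fun n hn => ?_⟩
    rw [Real.dist_eq, abs_lt]
    have := h3 n hn
    have := h3 k le_rfl
    constructor <;> linarith
  obtain ⟨L, hL⟩ := cauchySeq_tendsto_of_complete hcauchy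
  refine ⟨L, ?_, hL⟩
  have : w n₁ ≤ L := ge_of_tendsto' hL (fun n => (hband0 n (Nat.zero_le n)).1)
  linarith

end Pool.Agent.Lib_helper65.RB
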