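import Pool.Agent.Lib_helper65.RB.Cells

/-!
# One period of the dynamics near the self-similar profile
-/

namespace Pool.Agent.Lib_helper65.RB

open Filter Topology

theorem mean_mono_nonneg (j : ℕ) {x y x' y' : ℝ} (hx : 0 ≤ x) (hy : 0 ≤ y) (hx' : 0 < x')
    (hy' : 0 < y') (hxx : x ≤ x') (hyy : y ≤ y') : mean j x y ≤ mean j x' y' := by
  rcases hx.eq_or_lt with rfl | hx
  · have h1 := mean_pos j hx' hy'
    unfold mean at *
    split_ifs at * with h
    · linarith
    · simpa using h1.le
  · rcases hy.eq_or_lt with rfl | hy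
    · have h1 := mean_pos j hx' hy'
      unfold mean at *
      split_ifs at * with h
      · linarith
      · simpa using h1.le
    · exact mean_mono j hx hy hxx hyy

theorem mean_odd_le_left {j : ℕ} (hj : ¬ Even j) {x y : ℝ} (hx : 0 < x) (hy : 0 < y) :
    mean j x y ≤ 2 * x := by
  unfold mean
  rw [if_neg hj, div_le_iff₀ (by positivity)]
  nlinarith [mul_pos hx hx]

theorem mean_odd_le_right {j : ℕ} (hj : ¬ Even j) {x y : ℝ} (hx : 0 < x) (hy : 0 < y) :
    mean j x y ≤ 2 * y := by
  rw [mean_comm]; exact mean_odd_le_left hj hy hx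

theorem le_mean_odd {j : ℕ} (hj : ¬ Even j) {t y μ : ℝ} (ht : 0 < t) (hμ : 0 < μ) (hy : μ ≤ y) :
    2 * t / (1 + t / μ) ≤ mean j t y := by
  unfold mean
  have hy0 : 0 < y := lt_of_lt_of_le hμ hy
  rw [if_neg hj, div_le_div_iff₀ (by positivity) (by positivity)]
  have h1 : t * y / μ ≥ t := by
    rw [ge_iff_le, le_div_iff₀ hμ]
    exact mul_le_mul_of_nonneg_left hy ht.le
  have h2 : 2 * t * y * (1 + t / μ) = 2 * t * (y + t * y / μ) := by ring
  rw [h2]
  have : 0 < 2 * t := by linarith
  nlinarith

section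
variable {a b q : ℕ} (ha : Odd a) (hb : Odd b) (hab : a < b) (hN : 6 ≤ a + b)
  (hq : a * q % (a + b) = 1)

/-- the initial profile with small cells of size `t` -/
noncomputable def Phi (a b q : ℕ) (t : ℝ) (n : ℕ) : ℝ :=
  if pp a b q n = 0 ∨ pp a b q n + 1 = a + b then t else Psi a b q n

include ha hb hab hN hq

theorem Phi_pos {t : ℝ} (ht : 0 < t) {n : ℕ} (hn : n < b) : 0 < Phi a b q t n := by
  unfold Phi
  split_ifs with h
  · exact ht
  · apply Psi_pos ha hb hab hN hq
    · by_contra h1
      have h2 : pp a b q n = 1 := by omega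
      have := pp_one ha hb hab hN hq (n := n) (by omega) h2
      have := ha.pos
      omega
    · have := pp_lt ha hb hab hN hq n
      omega

theorem wPhi_isW (t : ℝ) : IsW a b (wsol a b (Phi a b q t)) := wsol_isW ha.pos hab.le _

theorem wPhi_rec (t : ℝ) {m : ℕ} (hm : b ≤ m) : wsol a b (Phi a b q t) m =
    mean m (wsol a b (Phi a b q t) (m - a)) (wsol a b (Phi a b q t) (m - b)) := by
  obtain ⟨j, rfl⟩ : ∃ j, m = j + b := ⟨m - b, by omega⟩
  rw [wPhi_isW ha hb hab hN hq t j, Nat.add_sub_cancel]

theorem wPhi_pos {t : ℝ} (ht : 0 < t) (n : ℕ) : 0 < wsol a b (Phi a b q t) n := by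
  apply (wPhi_isW ha hb hab hN hq t).pos (by omega) ha.pos hab.le
  intro n hn
  rw [wsol_init hn]
  exact Phi_pos ha hb hab hN hq ht hn

theorem Psi_le_w {t : ℝ} (ht : 0 < t) (m : ℕ) : Psi a b q m ≤ wsol a b (Phi a b q t) m := by
  induction m using Nat.strong_induction_on with
  | _ m ih =>
    by_cases hbig : 2 ≤ pp a b q m ∧ pp a b q m + 2 ≤ a + b
    · by_cases hm : m < b
      · rw [wsol_init hm]
        unfold Phi
        rw [if_neg (by omega)]
      · have ha1 := ha.pos
        rw [wPhi_rec ha hb hab hN hq t (by omega),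
          ← Psi_rec ha hb hab hN hq (m := m) (by omega) hbig.1 hbig.2]
        exact mean_mono_nonneg m (Psi_nonneg ha hb hab hN hq _) (Psi_nonneg ha hb hab hN hq _)
          (wPhi_pos ha hb hab hN hq ht _) (wPhi_pos ha hb hab hN hq ht _)
          (ih _ (by omega)) (ih _ (by omega))
    · rw [Psi_zero ha hb hab hN hq (by omega)]
      exact (wPhi_pos ha hb hab hN hq ht _).le

theorem pp_N_sub_one : pp a b q (a + b - 1) = 1 := by
  have h1 := pp_add_a ha hb hab hN hq (b - 1)
  have e : b - 1 + a = a + b - 1 := by omega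
  rw [e, pp_b_sub_one ha hb hab hN hq] at h1
  rw [h1]; exact Nat.mod_eq_of_lt (by omega)

theorem pp_a_sub_one : pp a b q (a - 1) = 2 := by
  have h1 := pp_add_b ha hb hab hN hq (a - 1)
  have ha1 := ha.pos
  have e : a - 1 + b = a + b - 1 := by omega
  rw [e, pp_N_sub_one ha hb hab hN hq] at h1
  rw [h1]; exact Nat.mod_eq_of_lt (by omega)

theorem pp_two_b_sub_one : pp a b q (2 * b - 1) + 1 = a + b := by
  have h1 := pp_add_b ha hb hab hN hq (b - 1)
  have e : b - 1 + b = 2 * b - 1 := by omega
  rw [e, pp_b_sub_one ha hb hab hN hq] at h1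
  have h2 := pp_lt ha hb hab hN hq (2 * b - 1)
  by_contra h3
  rw [Nat.mod_eq_of_lt (by omega)] at h1
  omega

theorem pp_two_b_sub_one_sub_a : pp a b q (2 * b - 1 - a) + 2 = a + b := by
  have h0 := pp_two_b_sub_one ha hb hab hN hq
  have h1 := pp_sub_a ha hb hab hN hq (m := 2 * b - 1) (by omega) (by omega)
  omega

section small
variable {t μ : ℝ} (ht : 0 < t) (hμ : 0 < μ)
  (hμΨ : ∀ m < a + b + b, 2 ≤ pp a b q m → pp a b q m + 2 ≤ a + b → μ ≤ Psi a b q m)
include ht

theorem w_b1 : wsol a b (Phi a b q t) (b - 1) = t := by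
  rw [wsol_init (by omega)]
  unfold Phi
  rw [if_pos (Or.inl (pp_b_sub_one ha hb hab hN hq))]

theorem w_b1a : wsol a b (Phi a b q t) (b - 1 - a) = t := by
  rw [wsol_init (by omega)]
  unfold Phi
  rw [if_pos (Or.inr (pp_b_sub_one_sub_a ha hb hab hN hq))]

theorem not_even_N1 : ¬ Even (a + b - 1) := by
  rw [Nat.not_even_iff_odd]
  obtain ⟨k, hk⟩ := (ha.add_odd hb).two_dvd
  exact ⟨k - 1, by omega⟩

theorem not_even_2b1 : ¬ Even (2 * b - 1) := by
  rw [Nat.not_even_iff_odd]
  exact ⟨b - 1, by omega⟩

theorem w_N1_eq : wsol a b (Phi a b q t) (a + b - 1) =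
    mean (a + b - 1) t (wsol a b (Phi a b q t) (a - 1)) := by
  have ha1 := ha.pos
  rw [wPhi_rec ha hb hab hN hq t (m := a + b - 1) (by omega)]
  have e1 : a + b - 1 - a = b - 1 := by omega
  have e2 : a + b - 1 - b = a - 1 := by omega
  rw [e1, e2, w_b1 ha hb hab hN hq ht]

theorem w_2b1_eq : wsol a b (Phi a b q t) (2 * b - 1) =
    mean (2 * b - 1) (wsol a b (Phi a b q t) (2 * b - 1 - a)) t := by
  rw [wPhi_rec ha hb hab hN hq t (m := 2 * b - 1) (by omega)]
  have e2 : 2 * b - 1 - b = b - 1 := by omega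
  rw [e2, w_b1 ha hb hab hN hq ht]

theorem w_N1_le : wsol a b (Phi a b q t) (a + b - 1) ≤ 2 * t := by
  rw [w_N1_eq ha hb hab hN hq ht]
  exact mean_odd_le_left (not_even_N1 ha hb hab hN hq ht) ht (wPhi_pos ha hb hab hN hq ht _)

theorem w_2b1_le : wsol a b (Phi a b q t) (2 * b - 1) ≤ 2 * t := by
  rw [w_2b1_eq ha hb hab hN hq ht]
  exact mean_odd_le_right (not_even_2b1 ha hb hab hN hq ht) (wPhi_pos ha hb hab hN hq ht _) ht

theorem w_Nb1_eq : wsol a b (Phi a b q t) (a + b + b - 1) =
    (wsol a b (Phi a b q t) (2 * b - 1) + wsol a b (Phi a b q t) (a + b - 1)) / 2 := by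
  rw [wPhi_rec ha hb hab hN hq t (m := a + b + b - 1) (by omega)]
  have e1 : a + b + b - 1 - a = 2 * b - 1 := by omega
  have e2 : a + b + b - 1 - b = a + b - 1 := by omega
  rw [e1, e2]
  unfold mean
  rw [if_pos]
  obtain ⟨k, hk⟩ := (ha.add_odd hb).two_dvd
  obtain ⟨l, hl⟩ := hb
  exact ⟨k + l, by omega⟩

include hμ hμΨ

theorem le_w_N1 : 2 * t / (1 + t / μ) ≤ wsol a b (Phi a b q t) (a + b - 1) := by
  rw [w_N1_eq ha hb hab hN hq ht]
  apply le_mean_odd (not_even_N1 ha hb hab hN hq ht) ht hμ
  have h1 := pp_a_sub_one ha hb hab hN hq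
  exact (hμΨ (a - 1) (by omega) (by omega) (by omega)).trans (Psi_le_w ha hb hab hN hq ht _)

theorem le_w_2b1 : 2 * t / (1 + t / μ) ≤ wsol a b (Phi a b q t) (2 * b - 1) := by
  rw [w_2b1_eq ha hb hab hN hq ht, mean_comm]
  apply le_mean_odd (not_even_2b1 ha hb hab hN hq ht) ht hμ
  have h1 := pp_two_b_sub_one_sub_a ha hb hab hN hq
  exact (hμΨ (2 * b - 1 - a) (by omega) (by omega) (by omega)).trans
    (Psi_le_w ha hb hab hN hq ht _)

theorem w_upper (m : ℕ) (hm : m < a + b + b) (h1 : 2 ≤ pp a b q m)
    (h2 : pp a b q m + 2 ≤ a + b) :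
    wsol a b (Phi a b q t) m ≤ (1 + t / μ) ^ m * Psi a b q m := by
  induction m using Nat.strong_induction_on with
  | _ m ih =>
    have hr : 0 < t / μ := by positivity
    have hΨ := Psi_pos ha hb hab hN hq h1 h2
    have hΨμ := hμΨ m hm h1 h2
    have ha1 := ha.pos
    by_cases hmb : m < b
    · rw [wsol_init hmb]
      unfold Phi
      rw [if_neg (by omega)]
      have : 1 ≤ (1 + t / μ) ^ m := one_le_pow₀ (by linarith)
      nlinarith
    · have hm1 : m = (m - 1) + 1 := by omega
      have hpw : (1 : ℝ) ≤ (1 + t / μ) ^ (m - 1) := one_le_pow₀ (by linarith)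
      have hpos : 0 < (1 + t / μ) ^ (m - 1) := by positivity
      have htΨ : t ≤ t / μ * Psi a b q m := by
        rw [div_mul_eq_mul_div, le_div_iff₀ hμ]
        exact mul_le_mul_of_nonneg_left hΨμ ht.le
      have hpow : ∀ j, j < m → (1 + t / μ) ^ j ≤ (1 + t / μ) ^ (m - 1) := fun j hj =>
        pow_le_pow_right₀ (by linarith) (by omega)
      have ea := pp_sub_a ha hb hab hN hq (m := m) (by omega) (by omega)
      have eb := pp_sub_b ha hb hab hN hq (m := m) (by omega) (by omega)
      have hrec := Psi_rec ha hb hab hN hq (m := m) (by omega) h1 h2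
      have hfin : (1 + t / μ) ^ (m - 1) * Psi a b q m + t ≤ (1 + t / μ) ^ m * Psi a b q m := by
        have hpm : (1 + t / μ) ^ m = (1 + t / μ) ^ (m - 1) * (1 + t / μ) := by
          rw [← pow_succ]; congr 1
        rw [hpm]
        have : (1 + t / μ) ^ (m - 1) * (1 + t / μ) * Psi a b q m =
          (1 + t / μ) ^ (m - 1) * Psi a b q m + (1 + t / μ) ^ (m - 1) * (t / μ * Psi a b q m) := by
          ring
        rw [this]
        nlinarith
      have hbigb : pp a b q m + 3 ≤ a + b →
          wsol a b (Phi a b q t) (m - b) ≤ (1 + t / μ) ^ (m - 1) * Psi a b q (m - b) := by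
        intro h3
        have := ih (m - b) (by omega) (by omega) (by omega) (by omega)
        exact this.trans (mul_le_mul_of_nonneg_right (hpow _ (by omega))
          (Psi_nonneg ha hb hab hN hq _))
      have hbiga : 3 ≤ pp a b q m →
          wsol a b (Phi a b q t) (m - a) ≤ (1 + t / μ) ^ (m - 1) * Psi a b q (m - a) := by
        intro h3
        have := ih (m - a) (by omega) (by omega) (by omega) (by omega)
        exact this.trans (mul_le_mul_of_nonneg_right (hpow _ (by omega))
          (Psi_nonneg ha hb hab hN hq _))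
      have hev := pp_even ha hb hab hN hq m
      rw [wPhi_rec ha hb hab hN hq t (m := m) (by omega)]
      by_cases hp2 : pp a b q m = 2
      · have hme : Even m := by rw [← hev, hp2]; exact even_two
        have h3 : m - a = a + b - 1 := pp_one ha hb hab hN hq (by omega) (by omega)
        have h4 := w_N1_le ha hb hab hN hq ht
        have h5 := hbigb (by omega)
        have h6 : Psi a b q (m - a) = 0 := Psi_zero ha hb hab hN hq (by omega)
        rw [h6] at hrec
        unfold mean at hrec ⊢
        rw [if_pos hme] at hrec ⊢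
        rw [h3]
        refine le_trans ?_ hfin
        rw [← hrec]
        nlinarith
      · by_cases hpl : pp a b q m + 2 = a + b
        · have hme : Even m := by
            rw [← hev]
            obtain ⟨k, hk⟩ := (ha.add_odd hb).two_dvd
            exact ⟨k - 1, by omega⟩
          have h3 : m - b = b - 1 - a := by
            rcases pp_last ha hb hab hN hq (n := m - b) (by omega) (by omega) with h | h
            · exact h
            · omega
          have h4 := w_b1a ha hb hab hN hq ht
          have h5 := hbiga (by omega)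
          have h6 : Psi a b q (m - b) = 0 := Psi_zero ha hb hab hN hq (by omega)
          rw [h6] at hrec
          unfold mean at hrec ⊢
          rw [if_pos hme] at hrec ⊢
          rw [h3, h4]
          refine le_trans ?_ hfin
          rw [← hrec]
          nlinarith
        · refine (mean_mono m (wPhi_pos ha hb hab hN hq ht _) (wPhi_pos ha hb hab hN hq ht _)
            (hbiga (by omega)) (hbigb (by omega))).trans ?_
          rw [mean_smul m hpos, hrec]
          linarith

/-- One period. -/
theorem period {n : ℕ} (hn : n < b) :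
    kap a b * (1 + t / μ)⁻¹ * Phi a b q (2 / kap a b * t) n ≤
      wsol a b (Phi a b q t) (n + (a + b)) ∧
    wsol a b (Phi a b q t) (n + (a + b)) ≤
      kap a b * (1 + t / μ) ^ (a + b + b) * Phi a b q (2 / kap a b * t) n := by
  have hk := kap_pos ha hb hab hN hq
  have hr : 0 < t / μ := by positivity
  have hone : (1 : ℝ) ≤ (1 + t / μ) ^ (a + b + b) := one_le_pow₀ (by linarith)
  have ekt : kap a b * (2 / kap a b * t) = 2 * t := by field_simp
  have hppN := pp_add_N ha hb hab hN hq n
  have hl1 := le_w_N1 ha hb hab hN hq ht hμ hμΨ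
  have hl2 := le_w_2b1 ha hb hab hN hq ht hμ hμΨ
  have hu1 := w_N1_le ha hb hab hN hq ht
  have hu2 := w_2b1_le ha hb hab hN hq ht
  by_cases h : pp a b q n = 0 ∨ pp a b q n + 1 = a + b
  · have hPhi : Phi a b q (2 / kap a b * t) n = 2 / kap a b * t := by
      unfold Phi; rw [if_pos h]
    rw [hPhi]
    have e1 : kap a b * (1 + t / μ)⁻¹ * (2 / kap a b * t) = 2 * t / (1 + t / μ) := by
      field_simp
    have e2 : kap a b * (1 + t / μ) ^ (a + b + b) * (2 / kap a b * t) =
        (1 + t / μ) ^ (a + b + b) * (2 * t) := by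
      rw [← ekt]; ring
    rw [e1, e2]
    have h2t : 2 * t ≤ (1 + t / μ) ^ (a + b + b) * (2 * t) := by nlinarith
    rcases h with h | h
    · have hn1 : n = b - 1 := by
        rcases pp_zero ha hb hab hN hq (n := n) (by omega) h with h | h
        · exact h
        · omega
      have e3 : n + (a + b) = a + b + b - 1 := by omega
      rw [e3, w_Nb1_eq ha hb hab hN hq ht]
      constructor <;> linarith
    · have hn1 : n = b - 1 - a := by
        rcases pp_last ha hb hab hN hq (n := n) (by omega) h with h | h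
        · exact h
        · omega
      have e3 : n + (a + b) = 2 * b - 1 := by omega
      rw [e3]
      constructor <;> linarith
  · have hPhi : Phi a b q (2 / kap a b * t) n = Psi a b q n := by
      unfold Phi; rw [if_neg h]
    rw [hPhi]
    have hlt := pp_lt ha hb hab hN hq n
    have hne1 : pp a b q n ≠ 1 := by
      intro h1
      have := pp_one ha hb hab hN hq (n := n) (by omega) h1
      have := ha.pos
      omega
    have hΨN := Psi_add_N ha hb hab hN hq n
    have hΨ0 := Psi_nonneg ha hb hab hN hq n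
    constructor
    · refine le_trans ?_ (Psi_le_w ha hb hab hN hq ht _)
      rw [hΨN]
      have : (1 + t / μ)⁻¹ ≤ 1 := inv_le_one_of_one_le₀ (by linarith)
      have h3 : kap a b * (1 + t / μ)⁻¹ * Psi a b q n = (1 + t / μ)⁻¹ * (kap a b * Psi a b q n) := by
        ring
      rw [h3]
      exact mul_le_of_le_one_left (by positivity) this
    · have h3 := w_upper ha hb hab hN hq ht hμ hμΨ (n + (a + b)) (by omega) (by omega) (by omega)
      refine h3.trans ?_
      rw [hΨN]
      have h4 : (1 + t / μ) ^ (n + (a + b)) ≤ (1 + t / μ) ^ (a + b + b) :=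
        pow_le_pow_right₀ (by linarith) (by omega)
      have h5 : kap a b * (1 + t / μ) ^ (a + b + b) * Psi a b q n =
        (1 + t / μ) ^ (a + b + b) * (kap a b * Psi a b q n) := by ring
      rw [h5]
      exact mul_le_mul_of_nonneg_right h4 (by positivity)

end small

end

end Pool.Agent.Lib_helper65.RB
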