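import Pool.Agent.Lib_helper65.RB.Mean

/-!
# The frozen self-similar profile
-/

namespace Pool.Agent.Lib_helper65.RB

open Filter Topology

/-- binomial profile on even cells -/
noncomputable def gg (n i : ℕ) : ℝ := if i = 0 then 0 else (Nat.choose n (i - 1) : ℝ)

theorem gg_pos {n i : ℕ} (h1 : 1 ≤ i) (h2 : i ≤ n + 1) : 0 < gg n i := by
  unfold gg
  rw [if_neg (by omega)]
  exact_mod_cast Nat.choose_pos (by omega)

theorem gg_nonneg (n i : ℕ) : 0 ≤ gg n i := by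
  unfold gg; split_ifs <;> positivity

theorem gg_left {n i : ℕ} (h1 : 1 ≤ i) (h2 : i ≤ n + 1) :
    gg n (i - 1) * gg n i / (gg n (i - 1) + gg n i) = gg n i * (((i : ℝ) - 1) / (n + 1)) := by
  have hpos := gg_pos h1 h2
  have hn1 : (0 : ℝ) < (n : ℝ) + 1 := by positivity
  rcases Nat.lt_or_ge 1 i with h | h
  · obtain ⟨k, rfl⟩ : ∃ k, i = k + 2 := ⟨i - 2, by omega⟩
    have e1 : gg n (k + 2 - 1) = (Nat.choose n k : ℝ) := by
      unfold gg; rw [if_neg (by omega)]; rfl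
    have e2 : gg n (k + 2) = (Nat.choose n (k + 1) : ℝ) := by
      unfold gg; rw [if_neg (by omega)]; rfl
    have e3 := Nat.add_one_mul_choose_eq n k
    have e4 := Nat.choose_succ_succ n k
    rw [e4] at e3
    have e5 : ((n : ℝ) + 1) * (Nat.choose n k : ℝ) =
        ((Nat.choose n k : ℝ) + (Nat.choose n (k + 1) : ℝ)) * ((k : ℝ) + 1) := by
      exact_mod_cast e3
    rw [e1, e2]
    have hp1 : (0 : ℝ) < (Nat.choose n k : ℝ) := by exact_mod_cast Nat.choose_pos (by omega)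
    have hp2 : (0 : ℝ) < (Nat.choose n (k + 1) : ℝ) := by exact_mod_cast Nat.choose_pos (by omega)
    rw [mul_div_assoc', div_eq_div_iff (by positivity) (by positivity)]
    push_cast
    linear_combination (Nat.choose n (k + 1) : ℝ) * e5
  · have : i = 1 := by omega
    subst this
    simp [gg]

theorem gg_right {n i : ℕ} (h1 : 1 ≤ i) (h2 : i ≤ n + 1) :
    gg n i * gg n (i + 1) / (gg n i + gg n (i + 1)) =
      gg n i * (((n : ℝ) + 1 - i) / (n + 1)) := by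
  have hpos := gg_pos h1 h2
  have hn1 : (0 : ℝ) < (n : ℝ) + 1 := by positivity
  obtain ⟨k, rfl⟩ : ∃ k, i = k + 1 := ⟨i - 1, by omega⟩
  have e1 : gg n (k + 1) = (Nat.choose n k : ℝ) := by
    unfold gg; rw [if_neg (by omega)]; rfl
  have e2 : gg n (k + 1 + 1) = (Nat.choose n (k + 1) : ℝ) := by
    unfold gg; rw [if_neg (by omega)]; rfl
  have e3 := Nat.choose_mul_succ_eq n (k + 1)
  have e4 := Nat.choose_succ_succ n k
  have e3' : (Nat.choose n (k + 1) : ℝ) * ((n : ℝ) + 1) =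
      ((Nat.choose n k : ℝ) + (Nat.choose n (k + 1) : ℝ)) * ((n : ℝ) + 1 - (k + 1)) := by
    have h3 : ((n + 1 - (k + 1) : ℕ) : ℝ) = (n : ℝ) + 1 - (k + 1) := by
      rw [Nat.cast_sub (by omega)]; push_cast; ring
    rw [← h3]
    rw [e4] at e3
    exact_mod_cast e3
  rw [e1, e2]
  have hp1 : (0 : ℝ) < (Nat.choose n k : ℝ) := by exact_mod_cast Nat.choose_pos (by omega)
  have hp2 : (0 : ℝ) ≤ (Nat.choose n (k + 1) : ℝ) := by positivity
  rw [mul_div_assoc', div_eq_div_iff (by positivity) (by positivity)]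
  push_cast
  linear_combination (Nat.choose n k : ℝ) * e3'

/-- The profile on all cells; `n = s - 2`. -/
noncomputable def ff (κ : ℝ) (n p : ℕ) : ℝ :=
  if Even p then gg n (p / 2)
  else κ ^ (-(1 / 2) : ℝ) * (2 * gg n (p / 2) * gg n (p / 2 + 1) / (gg n (p / 2) + gg n (p / 2 + 1)))

theorem ff_pos {κ : ℝ} (hκ : 0 < κ) {n p : ℕ} (h1 : 2 ≤ p) (h2 : p ≤ 2 * n + 2) :
    0 < ff κ n p := by
  unfold ff
  split_ifs with h
  · obtain ⟨k, rfl⟩ := h
    exact gg_pos (by omega) (by omega)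
  · rw [Nat.not_even_iff_odd] at h
    obtain ⟨k, rfl⟩ := h
    have e : (2 * k + 1) / 2 = k := by omega
    rw [e]
    have hp1 := gg_pos (n := n) (i := k) (by omega) (by omega)
    have hp2 := gg_pos (n := n) (i := k + 1) (by omega) (by omega)
    have := Real.rpow_pos_of_pos hκ (-(1 / 2) : ℝ)
    positivity

theorem ff_zero (κ : ℝ) (n : ℕ) : ff κ n 0 = 0 := by
  unfold ff; simp [gg]

theorem ff_one (κ : ℝ) (n : ℕ) : ff κ n 1 = 0 := by
  unfold ff; simp [gg]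

theorem ff_last (κ : ℝ) (n : ℕ) : ff κ n (2 * n + 3) = 0 := by
  unfold ff
  have : ¬ Even (2 * n + 3) := by rw [Nat.not_even_iff_odd]; exact ⟨n + 1, by ring⟩
  rw [if_neg this]
  have e : (2 * n + 3) / 2 = n + 1 := by omega
  rw [e]
  have : gg n (n + 1 + 1) = 0 := by unfold gg; rw [if_neg (by omega)]; simp
  rw [this]; simp

/-- Odd cells: harmonic mean. -/
theorem ff_odd {κ : ℝ} {n p : ℕ} (hp : ¬ Even p) (h1 : 1 ≤ p) :
    κ ^ (-(1 / 2) : ℝ) * (2 * ff κ n (p - 1) * ff κ n (p + 1) / (ff κ n (p - 1) + ff κ n (p + 1)))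
      = ff κ n p := by
  have hp' := hp
  rw [Nat.not_even_iff_odd] at hp
  obtain ⟨k, rfl⟩ := hp
  have a1 : ff κ n (2 * k + 1 - 1) = gg n k := by
    unfold ff
    rw [if_pos ⟨k, by omega⟩]; congr 1; omega
  have a2 : ff κ n (2 * k + 1 + 1) = gg n (k + 1) := by
    unfold ff
    rw [if_pos ⟨k + 1, by omega⟩]; congr 1; omega
  rw [a1, a2]
  conv_rhs => unfold ff
  rw [if_neg hp']
  have e : (2 * k + 1) / 2 = k := by omega
  rw [e]

/-- Even cells: arithmetic mean. -/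
theorem ff_even {κ : ℝ} {n p : ℕ} (hκ : κ = (n : ℝ) / (n + 1)) (hn : 1 ≤ n) (hp : Even p)
    (h1 : 2 ≤ p) (h2 : p ≤ 2 * n + 2) :
    κ ^ (-(1 / 2) : ℝ) * ((ff κ n (p - 1) + ff κ n (p + 1)) / 2) = ff κ n p := by
  have hn0 : (0 : ℝ) < n := by exact_mod_cast hn
  have hκ0 : 0 < κ := by rw [hκ]; positivity
  obtain ⟨k, rfl⟩ := hp
  have o1 : ¬ Even (k + k - 1) := by rw [Nat.not_even_iff_odd]; exact ⟨k - 1, by omega⟩
  have o2 : ¬ Even (k + k + 1) := by rw [Nat.not_even_iff_odd]; exact ⟨k, by omega⟩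
  have a0 : ff κ n (k + k) = gg n k := by
    unfold ff; rw [if_pos ⟨k, rfl⟩]; congr 1; omega
  have e1 : (k + k - 1) / 2 = k - 1 := by omega
  have e2 : (k + k + 1) / 2 = k := by omega
  have e3 : k - 1 + 1 = k := by omega
  have a1 : ff κ n (k + k - 1) = κ ^ (-(1 / 2) : ℝ) * (2 * (gg n k * (((k : ℝ) - 1) / (n + 1)))) := by
    unfold ff
    rw [if_neg o1, e1, e3, ← gg_left (n := n) (i := k) (by omega) (by omega)]
    ring
  have a2 : ff κ n (k + k + 1) =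
      κ ^ (-(1 / 2) : ℝ) * (2 * (gg n k * (((n : ℝ) + 1 - k) / (n + 1)))) := by
    unfold ff
    rw [if_neg o2, e2, ← gg_right (n := n) (i := k) (by omega) (by omega)]
    ring
  have hk : κ ^ (-(1 / 2) : ℝ) * κ ^ (-(1 / 2) : ℝ) = κ⁻¹ := by
    rw [← Real.rpow_add hκ0]; norm_num
    exact Real.rpow_neg_one κ
  rw [a0, a1, a2]
  have : κ ^ (-(1 / 2) : ℝ) * ((κ ^ (-(1 / 2) : ℝ) * (2 * (gg n k * (((k : ℝ) - 1) / (n + 1)))) +
      κ ^ (-(1 / 2) : ℝ) * (2 * (gg n k * (((n : ℝ) + 1 - k) / (n + 1))))) / 2) =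
      (κ ^ (-(1 / 2) : ℝ) * κ ^ (-(1 / 2) : ℝ)) *
        (gg n k * ((((k : ℝ) - 1) / (n + 1)) + (((n : ℝ) + 1 - k) / (n + 1)))) := by ring
  rw [this, hk, hκ]
  have hn1 : (n : ℝ) + 1 ≠ 0 := by positivity
  field_simp
  ring

end Pool.Agent.Lib_helper65.RB
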