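import Pool.Agent.Lib_helper65.RB.Asym
import Pool.Agent.Lib_helper65.RB.Red
import Pool.Agent.Lib_helper48.RB_SA
import Pool.Agent.Lib_helper35.RB_IR2

/-!
# The reduced basin is Zariski dense: case `a + b ≥ 8`
-/

namespace Pool.Agent.Lib_helper65.RB

open Filter Topology Polynomial

theorem exists_ne_near {n : ℕ} {P : MvPolynomial (Fin n) ℝ} (hP : P ≠ 0) (c0 : Fin n → ℝ)
    {ε : ℝ} (hε : 0 < ε) : ∃ c : Fin n → ℝ, (∀ i, c0 i ≤ c i ∧ c i ≤ c0 i + ε) ∧
      MvPolynomial.eval c P ≠ 0 := by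
  by_contra hcon
  push Not at hcon
  apply hP
  apply MvPolynomial.funext_set (fun i => Set.Icc (c0 i) (c0 i + ε))
    (fun i => Set.Icc_infinite (by linarith))
  intro x hx
  rw [hcon x (fun i => hx i (Set.mem_univ i)), map_zero]

/-- The `w`-data of the monomial curve. -/
noncomputable def vcurve {b : ℕ} (a : ℕ) (c : Fin b → ℝ) (t : ℝ) (n : ℕ) : ℝ :=
  ww c n * (if n = b - 1 ∨ n = b - 1 - a then t else 1)

/-- exponents of `t` -/
def ecurve (a b : ℕ) (i : Fin b) : ℤ := if (i : ℕ) = b - 1 then 1 else if (i : ℕ) = b - 1 - a then -1 else 0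

/-- exponents of the scaling parameter -/
def scurve (b : ℕ) (i : Fin b) : ℤ := if Even (i : ℕ) then 1 else -1

theorem curve_mem_Red {a b : ℕ} (ha : Odd a) (hb : Odd b) (hab : a < b) (hc : Nat.Coprime a b)
    {c : Fin b → ℝ} (hcp : ∀ i, 0 < c i) {t : ℝ} (ht : 0 < t) :
    (fun i : Fin b => c i * t ^ (ecurve a b i) * (√2 / LL a b (vcurve a c t)) ^ (scurve b i)) ∈
      Red a b := by
  have ha0 := ha.pos
  have hvpos : ∀ n < b, 0 < vcurve a c t n := by
    intro n _
    unfold vcurve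
    apply mul_pos (ww_pos hcp n)
    split_ifs
    · exact ht
    · exact one_pos
  have hLpos := LL_pos ha0 hab.le hc hvpos
  set l : ℝ := √2 / LL a b (vcurve a c t) with hl
  have hlpos : 0 < l := by positivity
  refine ⟨fun i => by have := hcp i; positivity, ?_⟩
  have hcongr : ∀ n < b, ww (fun i : Fin b => c i * t ^ (ecurve a b i) * l ^ (scurve b i)) n =
      l * vcurve a c t n := by
    intro n hn
    have hcn := hcp ⟨n, hn⟩
    unfold ww vcurve
    rw [dif_pos hn]
    unfold ww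
    rw [dif_pos hn]
    beta_reduce
    by_cases he : Even n
    · rw [if_pos he, if_pos he]
      have hs : scurve b ⟨n, hn⟩ = 1 := by unfold scurve; rw [if_pos he]
      rw [hs, zpow_one]
      have hna : n ≠ b - 1 - a := by
        rintro rfl
        have h1 : Even (b - 1 - a + a) ↔ (Even (b - 1 - a) ↔ Even a) := Nat.even_add
        have h2 : b - 1 - a + a = b - 1 := by omega
        have h3 : Even (b - 1) := by obtain ⟨k, hk⟩ := hb; exact ⟨k, by omega⟩
        rw [h2] at h1
        have := h1.1 h3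
        exact (Nat.not_even_iff_odd.2 ha) (this.1 he)
      by_cases hn1 : n = b - 1
      · have h1 : ecurve a b ⟨n, hn⟩ = 1 := by unfold ecurve; rw [if_pos hn1]
        rw [h1, if_pos (Or.inl hn1), zpow_one]; ring
      · have h1 : ecurve a b ⟨n, hn⟩ = 0 := by unfold ecurve; rw [if_neg hn1, if_neg hna]
        rw [h1, if_neg (by tauto), zpow_zero]; ring
    · rw [if_neg he, if_neg he]
      have hs : scurve b ⟨n, hn⟩ = -1 := by unfold scurve; rw [if_neg he]
      rw [hs, zpow_neg_one]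
      have hn1 : n ≠ b - 1 := by
        rintro rfl
        apply he
        obtain ⟨k, hk⟩ := hb; exact ⟨k, by omega⟩
      by_cases hna : n = b - 1 - a
      · have h1 : ecurve a b ⟨n, hn⟩ = -1 := by unfold ecurve; rw [if_neg hn1, if_pos hna]
        rw [h1, if_pos (Or.inr hna), zpow_neg_one]
        field_simp
      · have h1 : ecurve a b ⟨n, hn⟩ = 0 := by unfold ecurve; rw [if_neg hn1, if_neg hna]
        rw [h1, if_neg (by tauto), zpow_zero]
        field_simp
  rw [LL_congr ha0 hab.le hc (v' := fun n => l * vcurve a c t n) _ hcongr,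
    LL_smul ha0 hab.le hc hvpos hlpos, hl]
  · field_simp
  · intro n hn
    rw [hcongr n hn]
    exact mul_pos hlpos (hvpos n hn)

/-- The polynomial relation along a curve. -/
theorem curve_relation {a b : ℕ} (ha : Odd a) (hb : Odd b) (hab : a < b) (hc : Nat.Coprime a b)
    {P : MvPolynomial (Fin b) ℝ} (hvan : ∀ v ∈ Red a b, MvPolynomial.eval v P = 0)
    {c : Fin b → ℝ} (hcp : ∀ i, 0 < c i) (hPc : MvPolynomial.eval c P ≠ 0) :
    ∃ G : ℝ[X][X], G ≠ 0 ∧ ∀ t : ℝ, 0 < t →
      evalEval t (√2 / LL a b (vcurve a c t)) G = 0 := by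
  obtain ⟨G, K, hG, h⟩ := Pool.Agent.Lib_helper48.RB.exists_G P c (ecurve a b) (scurve b) hPc
  refine ⟨G, hG, fun t ht => ?_⟩
  have ha0 := ha.pos
  have hvpos : ∀ n < b, 0 < vcurve a c t n := by
    intro n _
    unfold vcurve
    apply mul_pos (ww_pos hcp n)
    split_ifs
    · exact ht
    · exact one_pos
  have hLpos := LL_pos ha0 hab.le hc hvpos
  rw [h t _ ht (by positivity), hvan _ (curve_mem_Red ha hb hab hc hcp ht), mul_zero]

theorem red_ge (no_rel_irrational : ∀ (G : ℝ[X][X]) (_ : G ≠ 0) (β : ℝ) (_ : Irrational β)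
    (l : ℝ → ℝ) (m M : ℝ) (_ : 0 < m)
    (_ : ∀ t, 0 < t → t < 1 → m * t ^ β ≤ l t ∧ l t ≤ M * t ^ β)
    (_ : ∀ t, 0 < t → t < 1 → evalEval t (l t) G = 0), False)
    {a b : ℕ} (ha : Odd a) (hb : Odd b) (hab : a < b) (hc : Nat.Coprime a b)
    (hN : 8 ≤ a + b) (P : MvPolynomial (Fin b) ℝ) (hP : P ≠ 0) :
    ∃ v ∈ Red a b, MvPolynomial.eval v P ≠ 0 := by
  by_contra hcon
  push Not at hcon
  obtain ⟨c, hc1, hPc⟩ := exists_ne_near hP (fun _ => (1 : ℝ)) one_pos
  have hcp : ∀ i, 0 < c i := fun i => by linarith [(hc1 i).1]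
  obtain ⟨G, hG, hGz⟩ := curve_relation ha hb hab hc hcon hcp hPc
  have ha0 := ha.pos
  obtain ⟨m, M, hm, hM, h⟩ := asym ha hb hab hc (by omega) (c1 := 1) (c2 := 2) one_pos two_pos
  have hb1 : ∀ t : ℝ, 0 < t → t < 1 →
      m * t ^ (alp a b) ≤ LL a b (vcurve a c t) ∧ LL a b (vcurve a c t) ≤ M * t ^ (alp a b) := by
    intro t ht0 ht1
    apply h t ht0 ht1
    intro n hn
    have hw : 1 ≤ ww c n ∧ ww c n ≤ 2 := by
      have h1 := hc1 ⟨n, hn⟩
      have h2 : 0 < c ⟨n, hn⟩ := hcp _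
      unfold ww
      rw [dif_pos hn]
      split_ifs
      · constructor <;> linarith [h1.1, h1.2]
      · constructor
        · rw [le_div_iff₀ h2]; linarith [h1.2]
        · rw [div_le_iff₀ h2]; linarith [h1.1]
    unfold vcurve
    constructor
    · apply mul_le_mul_of_nonneg_right hw.1
      split_ifs <;> linarith
    · apply mul_le_mul_of_nonneg_right hw.2
      split_ifs <;> linarith
  have hirr : Irrational (-(alp a b)) := by
    have hs := Pool.Agent.Lib_helper35.RB.irrational_exponent (ss a b + 2) (by unfold ss; omega)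
    have e1 : ((ss a b + 2 : ℕ) : ℝ) - 1 = ss a b + 1 := by push_cast; ring
    have e2 : ((ss a b + 2 : ℕ) : ℝ) - 2 = ss a b := by push_cast; ring
    rw [e1, e2] at hs
    have e3 : 1 / kap a b = ((ss a b : ℝ) + 1) / ss a b := by unfold kap; rw [one_div_div]
    have : alp a b = Real.log (((ss a b : ℝ) + 1) / ss a b) /
        Real.log (2 * (((ss a b : ℝ) + 1) / ss a b)) := by
      unfold alp; rw [e3]
    rw [this]
    exact hs.neg
  refine no_rel_irrational G hG (-(alp a b)) hirr (fun t => √2 / LL a b (vcurve a c t))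
    (√2 / M) (√2 / m) (by positivity) ?_ (fun t ht0 _ => hGz t ht0)
  intro t ht0 ht1
  obtain ⟨h1, h2⟩ := hb1 t ht0 ht1
  have htp : 0 < t ^ (alp a b) := Real.rpow_pos_of_pos ht0 _
  have hLpos : 0 < LL a b (vcurve a c t) := lt_of_lt_of_le (by positivity) h1
  have h2' : (0 : ℝ) < √2 := by positivity
  rw [Real.rpow_neg ht0.le]
  constructor
  · rw [le_div_iff₀ hLpos]
    calc √2 / M * (t ^ alp a b)⁻¹ * LL a b (vcurve a c t)
        ≤ √2 / M * (t ^ alp a b)⁻¹ * (M * t ^ alp a b) :=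
          mul_le_mul_of_nonneg_left h2 (by positivity)
      _ = √2 := by field_simp
  · rw [div_le_iff₀ hLpos]
    calc √2 = √2 / m * (t ^ alp a b)⁻¹ * (m * t ^ alp a b) := by field_simp
      _ ≤ √2 / m * (t ^ alp a b)⁻¹ * LL a b (vcurve a c t) :=
          mul_le_mul_of_nonneg_left h1 (by positivity)

end Pool.Agent.Lib_helper65.RB
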